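import Mathlib

/-!
# Covariances of sums of squares of approximately Gaussian fields (piece W5 of project QW)
-/

namespace Run7.h882.QW

noncomputable section

/-- positive linear functionals on the continuous functions -/
structure Pos {Q Ω : Type*} [TopologicalSpace Ω] (A : (Q → Ω → ℝ) → ℝ) : Prop where
  add : ∀ H G : Q → Ω → ℝ, (∀ q, Continuous (H q)) → (∀ q, Continuous (G q)) →
    A (fun q U => H q U + G q U) = A H + A G
  mul : ∀ (c : ℝ) (H : Q → Ω → ℝ), A (fun q U => c * H q U) = c * A H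
  mono : ∀ H G : Q → Ω → ℝ, (∀ q, Continuous (H q)) → (∀ q, Continuous (G q)) →
    (∀ q U, H q U ≤ G q U) → A H ≤ A G

variable {Q Ω : Type*} [TopologicalSpace Ω] {A : (Q → Ω → ℝ) → ℝ}

lemma Pos.sub (hA : Pos A) {H G : Q → Ω → ℝ} (hH : ∀ q, Continuous (H q))
    (hG : ∀ q, Continuous (G q)) : A (fun q U => H q U - G q U) = A H - A G := by
  have h1 := hA.add (fun q U => H q U - G q U) G (fun q => (hH q).sub (hG q)) hG
  have h2 : (fun q U => (fun q U => H q U - G q U) q U + G q U) = H := by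
    funext q U
    simp
  rw [h2] at h1
  linarith

lemma Pos.zero (hA : Pos A) : A (fun _ _ => 0) = 0 := by
  have h1 := hA.mul 0 (fun _ _ => 0)
  simpa using h1

lemma Pos.sum (hA : Pos A) {ι : Type*} (s : Finset ι) (H : ι → Q → Ω → ℝ)
    (hH : ∀ i q, Continuous (H i q)) :
    A (fun q U => ∑ i ∈ s, H i q U) = ∑ i ∈ s, A (H i) := by
  classical
  induction s using Finset.induction_on with
  | empty => simpa using hA.zero
  | insert a s ha ih =>
    rw [Finset.sum_insert ha, ← ih, ← hA.add (H a) (fun q U => ∑ i ∈ s, H i q U) (hH a)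
      (fun q => continuous_finsetSum _ fun i _ => hH i q)]
    congr 1
    funext q U
    rw [Finset.sum_insert ha]

lemma Pos.abs_sub (hA : Pos A) {H G K : Q → Ω → ℝ} (hH : ∀ q, Continuous (H q))
    (hG : ∀ q, Continuous (G q)) (hK : ∀ q, Continuous (K q))
    (h : ∀ q U, |H q U - G q U| ≤ K q U) : |A H - A G| ≤ A K := by
  rw [← hA.sub hH hG, abs_le]
  have e := hA.mul (-1) K
  constructor
  · have h1 := hA.mono (fun q U => -1 * K q U) (fun q U => H q U - G q U)
      (fun q => continuous_const.mul (hK q)) (fun q => (hH q).sub (hG q)) fun q U => by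
        have := (abs_le.1 (h q U)).1
        linarith
    rw [e] at h1
    linarith
  · exact hA.mono _ _ (fun q => (hH q).sub (hG q)) hK fun q U => (abs_le.1 (h q U)).2

/-- the covariance of two squares -/
lemma Pos.two (hA : Pos A) {F G : Q → Ω → ℝ} (hF : ∀ q, Continuous (F q))
    (hG : ∀ q, Continuous (G q)) {cf cg cp cm t Z E K : ℝ} (hp : cp = cf + cg + t)
    (hm : cm = cf + cg - t)
    (f2 : |A (fun q U => F q U ^ 2) - cf * Z| ≤ E)
    (f4 : |A (fun q U => F q U ^ 4) - 3 * cf ^ 2 * Z| ≤ E)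
    (g2 : |A (fun q U => G q U ^ 2) - cg * Z| ≤ E)
    (g4 : |A (fun q U => G q U ^ 4) - 3 * cg ^ 2 * Z| ≤ E)
    (p4 : |A (fun q U => (F q U + G q U) ^ 4) - 3 * cp ^ 2 * Z| ≤ E)
    (m4 : |A (fun q U => (F q U - G q U) ^ 4) - 3 * cm ^ 2 * Z| ≤ E)
    (hKf : |cf| ≤ K) (hKg : |cg| ≤ K) (hZ : 0 ≤ Z) :
    |A (fun q U => F q U ^ 2 * G q U ^ 2) * Z -
      A (fun q U => F q U ^ 2) * A (fun q U => G q U ^ 2) - t ^ 2 / 2 * Z ^ 2| ≤
      E * Z + 2 * K * Z * E + E ^ 2 := by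
  have e1 : 12 * A (fun q U => F q U ^ 2 * G q U ^ 2) + (2 * A (fun q U => F q U ^ 4) +
      2 * A (fun q U => G q U ^ 4)) =
      A (fun q U => (F q U + G q U) ^ 4) + A (fun q U => (F q U - G q U) ^ 4) := by
    have cF4 : ∀ q, Continuous fun U => 2 * F q U ^ 4 := fun q =>
      continuous_const.mul ((hF q).pow 4)
    have cG4 : ∀ q, Continuous fun U => 2 * G q U ^ 4 := fun q =>
      continuous_const.mul ((hG q).pow 4)
    have cFG : ∀ q, Continuous fun U => 12 * (F q U ^ 2 * G q U ^ 2) := fun q =>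
      continuous_const.mul (((hF q).pow 2).mul ((hG q).pow 2))
    have cP : ∀ q, Continuous fun U => (F q U + G q U) ^ 4 := fun q => ((hF q).add (hG q)).pow 4
    have cM : ∀ q, Continuous fun U => (F q U - G q U) ^ 4 := fun q => ((hF q).sub (hG q)).pow 4
    rw [← hA.mul, ← hA.mul, ← hA.mul,
      ← hA.add (fun q U => 2 * F q U ^ 4) (fun q U => 2 * G q U ^ 4) cF4 cG4,
      ← hA.add (fun q U => 12 * (F q U ^ 2 * G q U ^ 2))
        (fun q U => 2 * F q U ^ 4 + 2 * G q U ^ 4) cFG (fun q => (cF4 q).add (cG4 q)),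
      ← hA.add (fun q U => (F q U + G q U) ^ 4) (fun q U => (F q U - G q U) ^ 4) cP cM]
    congr 1
    funext q U
    ring
  set P := A (fun q U => F q U ^ 2 * G q U ^ 2)
  set f2' := A (fun q U => F q U ^ 2)
  set g2' := A (fun q U => G q U ^ 2)
  have a1 := abs_le.1 f4
  have a2 := abs_le.1 g4
  have a3 := abs_le.1 p4
  have a4 := abs_le.1 m4
  have hE : 0 ≤ E := (abs_nonneg _).trans f2
  have hK : 0 ≤ K := (abs_nonneg _).trans hKf
  have b1 : |P - (cf * cg + t ^ 2 / 2) * Z| ≤ E := by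
    have e2 : 3 * cp ^ 2 * Z + 3 * cm ^ 2 * Z - 6 * cf ^ 2 * Z - 6 * cg ^ 2 * Z =
        12 * ((cf * cg + t ^ 2 / 2) * Z) := by
      rw [hp, hm]
      ring
    rw [abs_le]
    constructor <;> linarith
  have e3 : P * Z - f2' * g2' - t ^ 2 / 2 * Z ^ 2 =
      (P - (cf * cg + t ^ 2 / 2) * Z) * Z - (cf * Z) * (g2' - cg * Z) -
        (cg * Z) * (f2' - cf * Z) - (f2' - cf * Z) * (g2' - cg * Z) := by
    ring
  rw [e3]
  have c1 : |(P - (cf * cg + t ^ 2 / 2) * Z) * Z| ≤ E * Z := by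
    rw [abs_mul, abs_of_nonneg hZ]
    exact mul_le_mul_of_nonneg_right b1 hZ
  have c2 : |(cf * Z) * (g2' - cg * Z)| ≤ K * Z * E := by
    rw [abs_mul, abs_mul, abs_of_nonneg hZ]
    exact mul_le_mul (mul_le_mul_of_nonneg_right hKf hZ) g2 (abs_nonneg _) (mul_nonneg hK hZ)
  have c3 : |(cg * Z) * (f2' - cf * Z)| ≤ K * Z * E := by
    rw [abs_mul, abs_mul, abs_of_nonneg hZ]
    exact mul_le_mul (mul_le_mul_of_nonneg_right hKg hZ) f2 (abs_nonneg _) (mul_nonneg hK hZ)
  have c4 : |(f2' - cf * Z) * (g2' - cg * Z)| ≤ E ^ 2 := by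
    rw [abs_mul, sq]
    exact mul_le_mul f2 g2 (abs_nonneg _) hE
  have d1 := abs_le.1 c1
  have d2 := abs_le.1 c2
  have d3 := abs_le.1 c3
  have d4 := abs_le.1 c4
  rw [abs_le]
  constructor <;> linarith

/-- the covariance of two sums of squares -/
lemma Pos.many (hA : Pos A) {ι κ : Type*} (s : Finset ι) (r : Finset κ) {F : ι → Q → Ω → ℝ}
    {G : κ → Q → Ω → ℝ} (hF : ∀ i q, Continuous (F i q)) (hG : ∀ i q, Continuous (G i q))
    {t : ι → κ → ℝ} {Z D c : ℝ}
    (h : ∀ i ∈ s, ∀ j ∈ r, |A (fun q U => F i q U ^ 2 * G j q U ^ 2) * Z -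
      A (fun q U => F i q U ^ 2) * A (fun q U => G j q U ^ 2) - t i j ^ 2 / 2 * Z ^ 2| ≤ D) :
    |A (fun q U => (c * ∑ i ∈ s, F i q U ^ 2) * (c * ∑ j ∈ r, G j q U ^ 2)) * Z -
      A (fun q U => c * ∑ i ∈ s, F i q U ^ 2) * A (fun q U => c * ∑ j ∈ r, G j q U ^ 2) -
      c ^ 2 / 2 * (∑ i ∈ s, ∑ j ∈ r, t i j ^ 2) * Z ^ 2| ≤ c ^ 2 * (s.card * r.card * D) := by
  have e1 : A (fun q U => (c * ∑ i ∈ s, F i q U ^ 2) * (c * ∑ j ∈ r, G j q U ^ 2)) =
      c ^ 2 * ∑ i ∈ s, ∑ j ∈ r, A (fun q U => F i q U ^ 2 * G j q U ^ 2) := by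
    have : (fun q U => (c * ∑ i ∈ s, F i q U ^ 2) * (c * ∑ j ∈ r, G j q U ^ 2)) =
        fun q U => c ^ 2 * ∑ i ∈ s, ∑ j ∈ r, F i q U ^ 2 * G j q U ^ 2 := by
      funext q U
      rw [← Finset.sum_mul_sum]
      ring
    rw [this, hA.mul, hA.sum s (fun i q U => ∑ j ∈ r, F i q U ^ 2 * G j q U ^ 2)
      (fun i q => continuous_finsetSum _ fun j _ => ((hF i q).pow 2).mul ((hG j q).pow 2))]
    congr 1
    refine Finset.sum_congr rfl fun i _ => ?_
    rw [hA.sum r (fun j q U => F i q U ^ 2 * G j q U ^ 2)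
      (fun j q => ((hF i q).pow 2).mul ((hG j q).pow 2))]
  have e2 : A (fun q U => c * ∑ i ∈ s, F i q U ^ 2) =
      c * ∑ i ∈ s, A (fun q U => F i q U ^ 2) := by
    rw [hA.mul, hA.sum s (fun i q U => F i q U ^ 2) (fun i q => (hF i q).pow 2)]
  have e3 : A (fun q U => c * ∑ i ∈ r, G i q U ^ 2) =
      c * ∑ i ∈ r, A (fun q U => G i q U ^ 2) := by
    rw [hA.mul, hA.sum r (fun i q U => G i q U ^ 2) (fun i q => (hG i q).pow 2)]
  have e4 : A (fun q U => (c * ∑ i ∈ s, F i q U ^ 2) * (c * ∑ j ∈ r, G j q U ^ 2)) * Z -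
      A (fun q U => c * ∑ i ∈ s, F i q U ^ 2) * A (fun q U => c * ∑ j ∈ r, G j q U ^ 2) -
      c ^ 2 / 2 * (∑ i ∈ s, ∑ j ∈ r, t i j ^ 2) * Z ^ 2 =
      c ^ 2 * ∑ i ∈ s, ∑ j ∈ r, (A (fun q U => F i q U ^ 2 * G j q U ^ 2) * Z -
      A (fun q U => F i q U ^ 2) * A (fun q U => G j q U ^ 2) - t i j ^ 2 / 2 * Z ^ 2) := by
    rw [e1, e2, e3]
    simp only [Finset.sum_sub_distrib, ← Finset.sum_mul, ← Finset.sum_div]
    rw [← Finset.sum_mul_sum]
    ring
  rw [e4, abs_mul, abs_of_nonneg (sq_nonneg c)]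
  refine mul_le_mul_of_nonneg_left ?_ (sq_nonneg c)
  refine (Finset.abs_sum_le_sum_abs _ _).trans ?_
  have h2 : ∀ i ∈ s, |∑ j ∈ r, (A (fun q U => F i q U ^ 2 * G j q U ^ 2) * Z -
      A (fun q U => F i q U ^ 2) * A (fun q U => G j q U ^ 2) - t i j ^ 2 / 2 * Z ^ 2)| ≤
      r.card * D := by
    intro i hi
    refine (Finset.abs_sum_le_sum_abs _ _).trans ((Finset.sum_le_sum fun j hj => h i hi j hj).trans
      (le_of_eq ?_))
    rw [Finset.sum_const, nsmul_eq_mul]
  refine (Finset.sum_le_sum h2).trans (le_of_eq ?_)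
  rw [Finset.sum_const, nsmul_eq_mul]
  ring

/-- the replacement of the local energies by the squares of the fields -/
lemma Pos.pert (hA : Pos A) {X X' Y Y' s : Q → Ω → ℝ} (cX : ∀ q, Continuous (X q))
    (cX' : ∀ q, Continuous (X' q)) (cY : ∀ q, Continuous (Y q)) (cY' : ∀ q, Continuous (Y' q))
    (cs : ∀ q, Continuous (s q)) {D B T : ℝ} (hD : 0 ≤ D) (hB : 0 ≤ B)
    (hs : ∀ q U, 0 ≤ s q U)
    (hX'0 : ∀ q U, 0 ≤ X' q U) (hX's : ∀ q U, X' q U ≤ B * s q U)
    (hXX : ∀ q U, |X q U - X' q U| ≤ D * (1 + s q U ^ 2))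
    (hY0 : ∀ q U, 0 ≤ Y q U) (hYs : ∀ q U, Y q U ≤ s q U)
    (hYY : ∀ q U, |Y q U - Y' q U| ≤ D * (1 + s q U ^ 2))
    (hT : A (fun q U => 1 + s q U ^ 3) = T) :
    |A (fun q U => X q U * Y q U) - A (fun q U => X' q U * Y' q U)| ≤ 2 * D * (1 + B) * T ∧
    |A X * A Y - A X' * A Y'| ≤ 2 * D * (1 + B) * T ^ 2 := by
  have cs3 : ∀ q, Continuous fun U => 1 + s q U ^ 3 := fun q => continuous_const.add ((cs q).pow 3)
  have k1 : ∀ x : ℝ, 0 ≤ x → x ≤ 1 + x ^ 3 := by
    intro x hx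
    rcases le_total x 1 with h | h
    · have := pow_nonneg hx 3
      linarith
    · have := pow_le_pow_right₀ h (show 1 ≤ 3 by norm_num)
      rw [pow_one] at this
      linarith
  have k2 : ∀ x : ℝ, 0 ≤ x → 1 + x ^ 2 ≤ 2 * (1 + x ^ 3) := by
    intro x hx
    rcases le_total x 1 with h | h
    · have h1 := pow_nonneg hx 3
      have h2 : x ^ 2 ≤ 1 := pow_le_one₀ hx h
      linarith
    · have := pow_le_pow_right₀ h (show 2 ≤ 3 by norm_num)
      have h1 := pow_nonneg hx 3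
      linarith
  have k3 : ∀ x : ℝ, 0 ≤ x → (1 + x ^ 2) * x ≤ 2 * (1 + x ^ 3) := by
    intro x hx
    have h1 := k1 x hx
    have h2 := pow_nonneg hx 3
    nlinarith
  have hT0 : 0 ≤ T := by
    rw [← hT, ← hA.zero]
    refine hA.mono _ _ (fun q => continuous_const) cs3 fun q U => ?_
    have := pow_nonneg (hs q U) 3
    linarith
  constructor
  · have h1 := hA.abs_sub (H := fun q U => X q U * Y q U) (G := fun q U => X' q U * Y' q U)
      (K := fun q U => (2 * D * (1 + B)) * (1 + s q U ^ 3))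
      (fun q => (cX q).mul (cY q)) (fun q => (cX' q).mul (cY' q))
      (fun q => continuous_const.mul (cs3 q)) fun q U => by
        have e : X q U * Y q U - X' q U * Y' q U =
          (X q U - X' q U) * Y q U + X' q U * (Y q U - Y' q U) := by ring
        rw [e]
        refine (abs_add_le _ _).trans ?_
        rw [abs_mul, abs_mul, abs_of_nonneg (hY0 q U), abs_of_nonneg (hX'0 q U)]
        have h2 : |X q U - X' q U| * Y q U ≤ D * (1 + s q U ^ 2) * s q U :=
          mul_le_mul (hXX q U) (hYs q U) (hY0 q U)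
            (mul_nonneg hD (by nlinarith [sq_nonneg (s q U)]))
        have h3 : X' q U * |Y q U - Y' q U| ≤ B * s q U * (D * (1 + s q U ^ 2)) :=
          mul_le_mul (hX's q U) (hYY q U) (abs_nonneg _) (mul_nonneg hB (hs q U))
        have h4 := mul_le_mul_of_nonneg_left (k3 _ (hs q U))
          (mul_nonneg hD (by linarith : 0 ≤ 1 + B))
        calc _ ≤ D * (1 + s q U ^ 2) * s q U + B * s q U * (D * (1 + s q U ^ 2)) :=
              add_le_add h2 h3
          _ = D * (1 + B) * ((1 + s q U ^ 2) * s q U) := by ring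
          _ ≤ D * (1 + B) * (2 * (1 + s q U ^ 3)) := h4
          _ = _ := by ring
    rw [hA.mul, hT] at h1
    exact h1
  · have hXY : ∀ {X X' : Q → Ω → ℝ}, (∀ q, Continuous (X q)) → (∀ q, Continuous (X' q)) →
        (∀ q U, |X q U - X' q U| ≤ D * (1 + s q U ^ 2)) → |A X - A X'| ≤ 2 * D * T := by
      intro X X' c1 c2 h
      have h1 := hA.abs_sub c1 c2 (K := fun q U => (2 * D) * (1 + s q U ^ 3))
        (fun q => continuous_const.mul (cs3 q)) fun q U => (h q U).trans (by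
          have := mul_le_mul_of_nonneg_left (k2 _ (hs q U)) hD
          linarith)
      rw [hA.mul, hT] at h1
      exact h1
    have h1 := hXY cX cX' hXX
    have h2 := hXY cY cY' hYY
    have h3 : A Y ≤ T := by
      rw [← hT]
      exact hA.mono _ _ cY cs3 fun q U => (hYs q U).trans (k1 _ (hs q U))
    have h3' : 0 ≤ A Y := by
      rw [← hA.zero]
      exact hA.mono _ _ (fun q => continuous_const) cY hY0
    have h4 : A X' ≤ B * T := by
      rw [← hT, ← hA.mul]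
      exact hA.mono _ _ cX' (fun q => continuous_const.mul (cs3 q)) fun q U =>
        (hX's q U).trans (mul_le_mul_of_nonneg_left (k1 _ (hs q U)) hB)
    have h4' : 0 ≤ A X' := by
      rw [← hA.zero]
      exact hA.mono _ _ (fun q => continuous_const) cX' hX'0
    have e : A X * A Y - A X' * A Y' = (A X - A X') * A Y + A X' * (A Y - A Y') := by ring
    rw [e]
    refine (abs_add_le _ _).trans ?_
    rw [abs_mul, abs_mul, abs_of_nonneg h3', abs_of_nonneg h4']
    have h5 : |A X - A X'| * A Y ≤ 2 * D * T * T :=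
      mul_le_mul h1 h3 h3' (by positivity)
    have h6 : A X' * |A Y - A Y'| ≤ B * T * (2 * D * T) :=
      mul_le_mul h4 h2 (abs_nonneg _) (by positivity)
    calc _ ≤ 2 * D * T * T + B * T * (2 * D * T) := add_le_add h5 h6
      _ = _ := by ring

end

end Run7.h882.QW
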