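import Pool.Agent.Run7.h630.QW.Iface
import Pool.Agent.Run7.h630.QF.R8
import Pool.Agent.Run7.h882.QW.Abs

/-!
# W5: the covariances of the local energies on the torus (project QW of helper630)
-/

open MeasureTheory Matrix Filter Topology
open scoped Matrix.Norms.Frobenius ComplexConjugate

namespace Run7.h882.QW

open Run7.h4.YM Run7.h630.WL Run7.h630.MQ Run7.h630.QC Run7.h630.ML Run7.h630.QF Run7.h630.QW
open Run7.h370.MQ Run7.h370.QC

set_option linter.unusedSectionVars false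
set_option linter.style.haveILetI false

noncomputable section

variable {N n L l : ℕ}

/-! ### linearity -/

section alg

variable [NeZero N] [NeZero n] [NeZero L] [NeZero l]

lemma Ph_lin (k : ℕ) (q : ZMod n × ZMod L → ZMod N) (f g : Col N → Fin 4 → Fin 4 → Site n L l → ℂ)
    (r : ℝ) (U : Link n L l → SU N) :
    Ph k q (fun α i j x => f α i j x + r * g α i j x) U = Ph k q f U + r * Ph k q g U := by
  unfold Ph
  simp only [Finset.mul_sum, ← Finset.sum_add_distrib]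
  refine Finset.sum_congr rfl fun α _ => Finset.sum_congr rfl fun x _ =>
    Finset.sum_congr rfl fun i _ => Finset.sum_congr rfl fun j _ => ?_
  rw [add_mul, Complex.add_re, mul_assoc, Complex.re_ofReal_mul]

lemma prg_left (k : ℕ) (f g : Col N → Fin 4 → Fin 4 → Site n L l → ℂ)
    (a : Col N → Fin 4 → Site n L l → ℂ) (r : ℝ) :
    prg k (fun α i j x => f α i j x + r * g α i j x) a = prg k f a + r * prg k g a := by
  unfold prg
  simp only [Finset.mul_sum, ← Finset.sum_add_distrib]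
  refine Finset.sum_congr rfl fun α _ => Finset.sum_congr rfl fun x _ =>
    Finset.sum_congr rfl fun i _ => Finset.sum_congr rfl fun j _ => ?_
  rw [add_mul, Complex.add_re, mul_assoc, Complex.re_ofReal_mul]

lemma prg_right (k : ℕ) (f : Col N → Fin 4 → Fin 4 → Site n L l → ℂ)
    (a b : Col N → Fin 4 → Site n L l → ℂ) (r : ℝ) :
    prg k f (fun α j x => a α j x + r * b α j x) = prg k f a + r * prg k f b := by
  unfold prg
  simp only [Finset.mul_sum, ← Finset.sum_add_distrib]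
  refine Finset.sum_congr rfl fun α _ => Finset.sum_congr rfl fun x _ =>
    Finset.sum_congr rfl fun i _ => Finset.sum_congr rfl fun j _ => ?_
  have e : conj (nb k α i (fun x => a α j x + r * b α j x) x -
      nb k α j (fun x => a α i x + r * b α i x) x) =
      conj (nb k α i (a α j) x - nb k α j (a α i) x) +
        r * conj (nb k α i (b α j) x - nb k α j (b α i) x) := by
    unfold nb
    simp only [map_sub, map_add, map_mul, Complex.conj_ofReal]
    ring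
  rw [e, mul_add, Complex.add_re, mul_left_comm, Complex.re_ofReal_mul]

lemma po_lin (k : ℕ) (f g : Col N → Fin 4 → Fin 4 → Site n L l → ℂ) (r : ℝ) :
    po k (fun α i j x => f α i j x + r * g α i j x) =
      fun α j x => po k f α j x + r * po k g α j x := by
  funext α j x
  unfold po pot
  have e : (fun x => ∑ i : Fin 4, nbs k α i (fun x => f α i j x + r * g α i j x) x) =
      (fun x => ∑ i : Fin 4, nbs k α i (f α i j) x) +
        (r : ℂ) • (fun x => ∑ i : Fin 4, nbs k α i (g α i j) x) := by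
    funext x
    simp only [nbs, Pi.add_apply, Pi.smul_apply, smul_eq_mul, Finset.mul_sum,
      ← Finset.sum_add_distrib]
    refine Finset.sum_congr rfl fun i _ => ?_
    ring
  rw [e, map_add, map_smul]
  rfl

lemma tw0_lin (χ : Col N → ℂ) (a b : Col N → Fin 4 → Site n L l → ℂ) (r : ℝ) :
    tw0 χ (fun α j x => a α j x + r * b α j x) =
      fun α j x => tw0 χ a α j x + r * tw0 χ b α j x := by
  funext α j x
  unfold tw0
  simp only [map_add, map_mul, Complex.conj_ofReal]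
  ring

lemma cc_lin (χ : Col N → ℂ) (k : ℕ) (f g : Col N → Fin 4 → Fin 4 → Site n L l → ℂ) :
    ∃ t : ℝ, ∀ r : ℝ, cc χ k (fun α i j x => f α i j x + r * g α i j x) =
      cc χ k f + r * t + r ^ 2 * cc χ k g := by
  refine ⟨(N / 2 : ℝ) * (prg k f (po k g) + prg k g (po k f)) -
    1 / 2 * (prg k f (tw0 χ (po k g)) + prg k g (tw0 χ (po k f))), fun r => ?_⟩
  unfold cc
  rw [po_lin, tw0_lin, prg_left, prg_left, prg_right, prg_right, prg_right, prg_right]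
  ring

lemma cc_ct (χ : Col N → ℂ) (k : ℕ) (f g : Col N → Fin 4 → Fin 4 → Site n L l → ℂ) :
    cc χ k (fun α i j x => f α i j x + ((1 : ℝ) : ℂ) * g α i j x) =
      cc χ k f + cc χ k g + ct χ k f g ∧
    cc χ k (fun α i j x => f α i j x + ((-1 : ℝ) : ℂ) * g α i j x) =
      cc χ k f + cc χ k g - ct χ k f g := by
  obtain ⟨t, ht⟩ := cc_lin χ k f g
  have h1 : ct χ k f g = t := by
    have h2 := ht 1
    have e : (fun α i j x => f α i j x + ((1 : ℝ) : ℂ) * g α i j x) =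
        fun α i j x => f α i j x + g α i j x := by
      funext α i j x
      simp
    rw [e] at h2
    unfold ct
    rw [h2]
    ring
  rw [ht, ht, h1]
  constructor <;> ring

/-! ### the fields of a plaquette -/

lemma Ph_pf (k : ℕ) (q : ZMod n × ZMod L → ZMod N) {α : Col N} (hα : α ∈ Cz N) (w : ℂ)
    {i j : Fin 4} (hij : i < j) (y : Site n L l) (U : Link n L l → SU N) :
    Ph k q (pf α w i j y) U = (w * ph2 k q α U i j y).re := by
  unfold Ph
  rw [Finset.sum_eq_single_of_mem α hα, Finset.sum_eq_single_of_mem y (Finset.mem_univ _),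
    Finset.sum_eq_single_of_mem i (Finset.mem_univ _),
    Finset.sum_eq_single_of_mem j (Finset.mem_Ioi.2 hij)]
  · simp [pf, dl]
  · intro b _ hbj
    have h1 : ¬(i = i ∧ b = j) := fun h => hbj h.2
    have h2 : ¬(i = j ∧ b = i) := fun h => hij.ne h.1
    unfold pf dl
    rw [if_pos rfl, if_pos rfl, if_neg h1, if_neg h2]
    simp
  · intro a _ hai
    refine Finset.sum_eq_zero fun b hb => ?_
    have h1 : ¬(a = i ∧ b = j) := fun h => hai h.1
    have h2 : ¬(a = j ∧ b = i) := fun h => by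
      have h3 := Finset.mem_Ioi.1 hb
      rw [h.1, h.2] at h3
      exact lt_asymm hij h3
    unfold pf dl
    rw [if_pos rfl, if_pos rfl, if_neg h1, if_neg h2]
    simp
  · intro x _ hx
    refine Finset.sum_eq_zero fun a _ => Finset.sum_eq_zero fun b _ => ?_
    unfold pf dl
    rw [if_pos rfl, if_neg hx]
    simp
  · intro α' _ hα'
    refine Finset.sum_eq_zero fun x _ => Finset.sum_eq_zero fun a _ =>
      Finset.sum_eq_zero fun b _ => ?_
    unfold pf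
    rw [if_neg hα']
    simp

lemma pf_anti {α : Col N} (w : ℂ) {i j : Fin 4} (hij : i ≠ j) (y : Site n L l) (α' : Col N)
    (a b : Fin 4) (x : Site n L l) : pf α w i j y α' b a x = -pf α w i j y α' a b x := by
  have h : dl i j y b a x = -dl i j y a b x := by
    unfold dl
    by_cases hx : x = y
    · rw [if_pos hx, if_pos hx]
      by_cases h1 : a = i ∧ b = j
      · have h2 : ¬(b = i ∧ a = j) := fun h => hij (h1.1.symm.trans h.2)
        rw [if_pos h1, if_neg h2, if_pos ⟨h1.2, h1.1⟩]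
      · rw [if_neg h1]
        by_cases h3 : a = j ∧ b = i
        · rw [if_pos h3, if_pos ⟨h3.2, h3.1⟩, neg_neg]
        · rw [if_neg h3, if_neg (fun h => h3 ⟨h.2, h.1⟩), if_neg (fun h => h1 ⟨h.2, h.1⟩), neg_zero]
    · rw [if_neg hx, if_neg hx, neg_zero]
  unfold pf
  split_ifs
  · rw [h, mul_neg]
  · rw [neg_zero]

lemma pf_norm {α : Col N} {w : ℂ} (hw : ‖w‖ = 1) (i j : Fin 4) (y : Site n L l) (α' : Col N)
    (a b : Fin 4) (x : Site n L l) : ‖pf α w i j y α' a b x‖ ≤ 1 := by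
  have h : ‖dl i j y a b x‖ ≤ 1 := by
    unfold dl
    split_ifs <;> simp
  unfold pf
  split_ifs
  · rw [norm_mul, hw, one_mul]
    exact h
  · simp

lemma ph2_le (k : ℕ) (q : ZMod n × ZMod L → ZMod N) (α : Col N) (U : Link n L l → SU N)
    (i j : Fin 4) (x : Site n L l) : ‖ph2 k q α U i j x‖ ≤ N ^ 2 * ‖Fc k q U x i j‖ := by
  unfold ph2
  refine (norm_tr_mul_le _ _).trans ?_
  calc (N : ℝ) * (‖(Dr α U x).1‖ * ‖Fc k q U x i j‖) ≤ N * (N * ‖Fc k q U x i j‖) :=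
        mul_le_mul_of_nonneg_left (mul_le_mul_of_nonneg_right (norm_SU_le _) (norm_nonneg _))
          (Nat.cast_nonneg _)
    _ = _ := by ring

lemma Fc_le_N (k : ℕ) (q : ZMod n × ZMod L → ZMod N) (U : Link n L l → SU N)
    (x : Site n L l) (i j : Fin 4) : ‖Fc k q U x i j‖ ≤ 2 * N := by
  unfold Fc
  refine (norm_sub_le _ _).trans ?_
  rw [norm_smul, zz_norm, one_mul]
  have h1 := norm_SU_le (plaq U x i j)
  have h2 := norm_SU_le (1 : SU N)
  have h3 : ((1 : SU N)).1 = (1 : Mt N) := rfl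
  rw [h3] at h2
  linarith

lemma ph2_sq_le (k : ℕ) (q : ZMod n × ZMod L → ZMod N) (α : Col N) (U : Link n L l → SU N)
    {i j : Fin 4} (x : Site n L l) : ‖ph2 k q α U i j x‖ ^ 2 ≤ 2 * N ^ 4 * Sq k q U ∧
      ‖ph2 k q α U i j x‖ ^ 2 ≤ 4 * N ^ 6 := by
  have h1 := ph2_le k q α U i j x
  have h2 : ‖ph2 k q α U i j x‖ ^ 2 ≤ N ^ 4 * ‖Fc k q U x i j‖ ^ 2 := by
    calc ‖ph2 k q α U i j x‖ ^ 2 ≤ (N ^ 2 * ‖Fc k q U x i j‖) ^ 2 :=
          pow_le_pow_left₀ (norm_nonneg _) h1 2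
      _ = _ := by ring
  constructor
  · have h3 : ‖Fc k q U x i j‖ ^ 2 ≤ 2 * Sq k q U := by
      rw [← ss_sq']
      exact pow_le_pow_left₀ (norm_nonneg _) (Fc_le k q U x i j) 2
    calc _ ≤ _ := h2
      _ ≤ N ^ 4 * (2 * Sq k q U) := mul_le_mul_of_nonneg_left h3 (by positivity)
      _ = _ := by ring
  · have h3 : ‖Fc k q U x i j‖ ^ 2 ≤ (2 * N) ^ 2 :=
      pow_le_pow_left₀ (norm_nonneg _) (Fc_le_N k q U x i j) 2
    calc _ ≤ _ := h2
      _ ≤ N ^ 4 * ((2 * N : ℝ)) ^ 2 := mul_le_mul_of_nonneg_left h3 (by positivity)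
      _ = _ := by ring

lemma re_sq (z : ℂ) : ∑ w ∈ ({1, Complex.I} : Finset ℂ), (w * z).re ^ 2 = ‖z‖ ^ 2 := by
  have h1 : (1 : ℂ) ∉ ({Complex.I} : Finset ℂ) := by
    rw [Finset.mem_singleton]
    intro h
    have := congrArg Complex.re h
    simp at this
  rw [Finset.sum_insert h1, Finset.sum_singleton, one_mul, Complex.I_mul_re, neg_sq,
    ← Complex.normSq_eq_norm_sq, Complex.normSq_apply]
  ring

lemma card_Cz : ((Cz N).card : ℝ) ≤ (N : ℝ) ^ 2 := by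
  have : (Cz N).card ≤ N ^ 2 := by
    refine (Finset.card_le_card (Finset.erase_subset _ _)).trans ?_
    rw [Finset.card_univ, Fintype.card_prod, Fintype.card_fin, sq]
  exact_mod_cast this

lemma card_one_I : (({1, Complex.I} : Finset ℂ).card : ℝ) = 2 := by
  have h1 : (1 : ℂ) ∉ ({Complex.I} : Finset ℂ) := by
    rw [Finset.mem_singleton]
    intro h
    have := congrArg Complex.re h
    simp at this
  rw [Finset.card_insert_of_notMem h1, Finset.card_singleton]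
  norm_num

/-- the sum of the squares of the fields -/
lemma sum_sq (k : ℕ) (q : ZMod n × ZMod L → ZMod N) (U : Link n L l → SU N) {i j : Fin 4}
    (hij : i < j) (x : Site n L l) {β : ℝ} (hβ : 0 ≤ β) :
    ∑ a ∈ Cz N ×ˢ ({1, Complex.I} : Finset ℂ), (Real.sqrt β * Ph k q (pf a.1 a.2 i j x) U) ^ 2 =
      β * ∑ α ∈ Cz N, ‖ph2 k q α U i j x‖ ^ 2 := by
  rw [Finset.sum_product, Finset.mul_sum]
  refine Finset.sum_congr rfl fun α hα => ?_
  rw [← re_sq, Finset.mul_sum]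
  refine Finset.sum_congr rfl fun w _ => ?_
  rw [Ph_pf k q hα w hij, mul_pow, Real.sq_sqrt hβ]

end alg

/-! ### the functional -/

section fun_

variable [NeZero N] [NeZero n] [NeZero L] [NeZero l] [MeasurableSpace (SU N)]
  [BorelSpace (SU N)]

lemma AA_pos (μ : Measure (SU N)) [IsProbabilityMeasure μ] (k R : ℕ) (β : ℝ) :
    Pos fun H : (ZMod n × ZMod L → ZMod N) → (Link n L l → SU N) → ℝ => Sw N n L R (fun q =>
      ∫ U, H q U * Real.exp (-(β * Sq k q U)) ∂(Measure.pi fun _ : Link n L l => μ)) := by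
  have hW : ∀ q : ZMod n × ZMod L → ZMod N,
      Continuous fun U : Link n L l → SU N => Real.exp (-(β * Sq k q U)) := fun q =>
    Real.continuous_exp.comp ((continuous_const.mul (cont_Sq k q)).neg)
  have hI : ∀ H : (ZMod n × ZMod L → ZMod N) → (Link n L l → SU N) → ℝ,
      (∀ q, Continuous (H q)) → ∀ q, Integrable (fun U => H q U * Real.exp (-(β * Sq k q U)))
        (Measure.pi fun _ : Link n L l => μ) := fun H hH q =>
    Run7.h863.MQ.intg _ ((hH q).mul (hW q))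
  refine ⟨fun H G hH hG => ?_, fun c H => ?_, fun H G hH hG h => ?_⟩
  · simp only
    rw [← Sw_add]
    congr 1
    funext q
    rw [← integral_add (hI H hH q) (hI G hG q)]
    refine integral_congr_ae (Eventually.of_forall fun U => ?_)
    simp only
    ring
  · simp only
    rw [← Sw_mul]
    congr 1
    funext q
    rw [← integral_const_mul]
    refine integral_congr_ae (Eventually.of_forall fun U => ?_)
    simp only
    ring
  · refine Sw_le fun q => integral_mono (hI H hH q) (hI G hG q) fun U => ?_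
    exact mul_le_mul_of_nonneg_right (h q U) (Real.exp_pos _).le

open Classical in
lemma Z_pos (μ : Measure (SU N)) [IsProbabilityMeasure μ] (k R : ℕ) (β : ℝ) :
    0 < Sw N n L R (fun q => ∫ U, Real.exp (-(β * Sq k q U))
      ∂(Measure.pi fun _ : Link n L l => μ)) := by
  have hW : ∀ q : ZMod n × ZMod L → ZMod N,
      Continuous fun U : Link n L l → SU N => Real.exp (-(β * Sq k q U)) := fun q =>
    Real.continuous_exp.comp ((continuous_const.mul (cont_Sq k q)).neg)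
  unfold Sw
  refine Finset.sum_pos (fun q _ => integral_exp_pos (Run7.h863.MQ.intg _ (hW q))) ⟨0, ?_⟩
  rw [Finset.mem_filter]
  exact ⟨Finset.mem_univ _, fun x _ _ => rfl⟩

/-- the moments -/
lemma mom3 (hR6 : S_R6) {k : ℕ} {μ : Measure (SU N)} [IsProbabilityMeasure μ]
    [μ.IsHaarMeasure] {C12 β : ℝ} {m l R : ℕ} [NeZero m] [NeZero (2 * m)] [NeZero l]
    (hR : 2 * R + 2 ≤ 2 * m)
    (h12 : ∑ q : ZMod (2 * m) × ZMod (2 * m) → ZMod N,
      ∫ U, (β * Sq k q U) ^ 3 * Real.exp (-(β * Sq k q U))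
        ∂(Measure.pi fun _ : Link (2 * m) (2 * m) l => μ) ≤
      C12 * (vol (2 * m) (2 * m) l * (1 + Real.log β)) ^ 3 * Zs μ (2 * m) (2 * m) l k β) :
    Sw N (2 * m) (2 * m) R (fun q => ∫ U, (1 + (β * Sq k q U) ^ 3) *
      Real.exp (-(β * Sq k q U)) ∂(Measure.pi fun _ : Link (2 * m) (2 * m) l => μ)) ≤
      (1 + C12 * (vol (2 * m) (2 * m) l * (1 + Real.log β)) ^ 3) *
        Sw N (2 * m) (2 * m) R (fun q => ∫ U, Real.exp (-(β * Sq k q U))
          ∂(Measure.pi fun _ : Link (2 * m) (2 * m) l => μ)) := by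
  have hS' : ∀ q : ZMod (2 * m) × ZMod (2 * m) → ZMod N,
      Continuous fun U : Link (2 * m) (2 * m) l → SU N => Sq k q U := fun q => cont_Sq k q
  have hW : ∀ q : ZMod (2 * m) × ZMod (2 * m) → ZMod N,
      Continuous fun U : Link (2 * m) (2 * m) l → SU N => Real.exp (-(β * Sq k q U)) := fun q =>
    Real.continuous_exp.comp ((continuous_const.mul (hS' q)).neg)
  set Z := Sw N (2 * m) (2 * m) R (fun q => ∫ U, Real.exp (-(β * Sq k q U))
          ∂(Measure.pi fun _ : Link (2 * m) (2 * m) l => μ)) with hZ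
  set V := vol (2 * m) (2 * m) l with hV
  have g1 := hR6 N (2 * m) (2 * m) l k μ R hR hR
    (fun s => (1 + (β * s) ^ 3) * Real.exp (-(β * s))) (by fun_prop)
  have g2 := hR6 N (2 * m) (2 * m) l k μ R hR hR (fun s => Real.exp (-(β * s))) (by fun_prop)
  rw [← hZ] at g2
  have hN : (0 : ℝ) < (N : ℝ) ^ ((2 * R + 1) ^ 2) := by
    have : (0 : ℝ) < N := by exact_mod_cast Nat.pos_of_neZero N
    positivity
  refine le_of_mul_le_mul_left ?_ hN
  rw [g1]
  have g4 : ∀ q : ZMod (2 * m) × ZMod (2 * m) → ZMod N,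
      ∫ U, (1 + (β * Sq k q U) ^ 3) * Real.exp (-(β * Sq k q U))
        ∂(Measure.pi fun _ : Link (2 * m) (2 * m) l => μ) =
      ∫ U, Real.exp (-(β * Sq k q U)) ∂(Measure.pi fun _ : Link (2 * m) (2 * m) l => μ) +
      ∫ U, (β * Sq k q U) ^ 3 * Real.exp (-(β * Sq k q U))
        ∂(Measure.pi fun _ : Link (2 * m) (2 * m) l => μ) := by
    intro q
    have i1 : Integrable (fun U : Link (2 * m) (2 * m) l → SU N =>
        Real.exp (-(β * Sq k q U))) (Measure.pi fun _ : Link (2 * m) (2 * m) l => μ) :=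
      Run7.h863.MQ.intg _ (hW q)
    have i2 : Integrable (fun U : Link (2 * m) (2 * m) l → SU N =>
        (β * Sq k q U) ^ 3 * Real.exp (-(β * Sq k q U)))
        (Measure.pi fun _ : Link (2 * m) (2 * m) l => μ) :=
      Run7.h863.MQ.intg _ (((continuous_const.mul (hS' q)).pow 3).mul (hW q))
    rw [← integral_add i1 i2]
    refine integral_congr_ae (Eventually.of_forall fun U => ?_)
    simp only
    ring
  simp only [g4]
  rw [Finset.sum_add_distrib]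
  have g5 : (N : ℝ) ^ ((2 * R + 1) ^ 2) * ((1 + C12 * (V * (1 + Real.log β)) ^ 3) * Z) =
      (1 + C12 * (V * (1 + Real.log β)) ^ 3) * ∑ q : ZMod (2 * m) × ZMod (2 * m) → ZMod N,
        ∫ U, Real.exp (-(β * Sq k q U))
          ∂(Measure.pi fun _ : Link (2 * m) (2 * m) l => μ) := by
    rw [← g2]
    ring
  rw [g5, add_mul, one_mul]
  exact add_le_add le_rfl h12

end fun_

/-! ### numerical estimates -/

lemma fin1 {C5 C12 V β Z T : ℝ} {N p5 : ℕ} (hC5 : 0 < C5) (hC12 : 0 < C12) (hV : 1 ≤ V)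
    (hβ : 1 ≤ β) (hZ : 0 < Z) (hT0 : 0 ≤ T)
    (hT : T ≤ (1 + C12 * (V * (1 + Real.log β)) ^ 3) * Z) :
    2 * (C5 * V ^ p5 / Real.sqrt β) * (1 + (N : ℝ) ^ 5) * T * Z +
      2 * (C5 * V ^ p5 / Real.sqrt β) * (1 + (N : ℝ) ^ 5) * T ^ 2 ≤
    4 * (1 + (N : ℝ) ^ 5) * C5 * ((1 + C12) * 15625) ^ 2 * V ^ (p5 + 6) * β ^ (-(1 / 4) : ℝ) *
      Z ^ 2 := by
  have h0 : 0 < β := by linarith
  have hV0 : 0 < V := by linarith
  have hlog : (1 + Real.log β) ^ 3 ≤ 15625 * β ^ (1 / 8 : ℝ) := by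
    have h1 : Real.log β ≤ β ^ (1 / 24 : ℝ) / (1 / 24) := Real.log_le_rpow_div h0.le (by norm_num)
    have h2 : 1 ≤ β ^ (1 / 24 : ℝ) := Real.one_le_rpow hβ (by norm_num)
    have h3 : 1 + Real.log β ≤ 25 * β ^ (1 / 24 : ℝ) := by linarith
    have h4 : 0 ≤ 1 + Real.log β := by linarith [Real.log_nonneg hβ]
    calc (1 + Real.log β) ^ 3 ≤ (25 * β ^ (1 / 24 : ℝ)) ^ 3 := pow_le_pow_left₀ h4 h3 3
      _ = 15625 * β ^ (1 / 8 : ℝ) := by
        rw [mul_pow, ← Real.rpow_natCast (β ^ (1 / 24 : ℝ)) 3, ← Real.rpow_mul h0.le]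
        norm_num
  have hq1 : 1 ≤ β ^ (1 / 8 : ℝ) := Real.one_le_rpow hβ (by norm_num)
  set τ : ℝ := (1 + C12) * 15625 * V ^ 3 * β ^ (1 / 8 : ℝ) with hτ
  have hV3 : 1 ≤ V ^ 3 := one_le_pow₀ hV
  have h3 : (V * (1 + Real.log β)) ^ 3 ≤ 15625 * V ^ 3 * β ^ (1 / 8 : ℝ) := by
    rw [mul_pow]
    calc V ^ 3 * (1 + Real.log β) ^ 3 ≤ V ^ 3 * (15625 * β ^ (1 / 8 : ℝ)) :=
          mul_le_mul_of_nonneg_left hlog (by positivity)
      _ = _ := by ring
  have h4 : 1 ≤ 15625 * V ^ 3 * β ^ (1 / 8 : ℝ) := by nlinarith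
  have g1 : 1 + C12 * (V * (1 + Real.log β)) ^ 3 ≤ τ := by
    have h5 := mul_le_mul_of_nonneg_left h3 hC12.le
    rw [hτ]
    nlinarith
  have g2 : 1 ≤ τ := by
    have : 0 ≤ C12 * (15625 * V ^ 3 * β ^ (1 / 8 : ℝ)) := by positivity
    rw [hτ]
    nlinarith
  have g3 : T ≤ τ * Z := hT.trans (mul_le_mul_of_nonneg_right g1 hZ.le)
  have g4 : T * Z ≤ τ ^ 2 * Z ^ 2 := by
    calc T * Z ≤ τ * Z * Z := mul_le_mul_of_nonneg_right g3 hZ.le
      _ = τ * 1 * Z ^ 2 := by ring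
      _ ≤ τ * τ * Z ^ 2 := mul_le_mul_of_nonneg_right
          (mul_le_mul_of_nonneg_left g2 (by linarith)) (sq_nonneg _)
      _ = _ := by ring
  have g5 : T ^ 2 ≤ τ ^ 2 * Z ^ 2 := by
    rw [← mul_pow]
    exact pow_le_pow_left₀ hT0 g3 2
  have hb : β ^ (1 / 4 : ℝ) / Real.sqrt β = β ^ (-(1 / 4) : ℝ) := by
    rw [Real.sqrt_eq_rpow, ← Real.rpow_sub h0]
    norm_num
  have hq : (β ^ (1 / 8 : ℝ)) ^ 2 = β ^ (1 / 4 : ℝ) := by
    rw [← Real.rpow_natCast (β ^ (1 / 8 : ℝ)) 2, ← Real.rpow_mul h0.le]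
    norm_num
  have hsb : 0 < Real.sqrt β := Real.sqrt_pos.2 h0
  set P : ℝ := 2 * (C5 * V ^ p5 / Real.sqrt β) * (1 + (N : ℝ) ^ 5) with hP
  have hP0 : 0 ≤ P := by positivity
  calc P * T * Z + P * T ^ 2 = P * (T * Z) + P * T ^ 2 := by ring
    _ ≤ P * (τ ^ 2 * Z ^ 2) + P * (τ ^ 2 * Z ^ 2) :=
        add_le_add (mul_le_mul_of_nonneg_left g4 hP0) (mul_le_mul_of_nonneg_left g5 hP0)
    _ = 4 * (1 + (N : ℝ) ^ 5) * C5 * ((1 + C12) * 15625) ^ 2 * (V ^ p5 * V ^ 6) *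
        ((β ^ (1 / 8 : ℝ)) ^ 2 / Real.sqrt β) * Z ^ 2 := by
      rw [hP, hτ]
      ring
    _ = _ := by rw [hq, hb, pow_add]

lemma fin2 {a V b Z s r : ℝ} {N p4 : ℕ} [NeZero N] (ha : 0 < a) (hV : 1 ≤ V) (hb0 : 0 ≤ b)
    (hb1 : b ≤ 1) (hr0 : 0 ≤ r) (hs : s ≤ 2 * (N : ℝ) ^ 2)
    (hr : r ≤ 2 * (N : ℝ) ^ 2) (hZ : 0 < Z) :
    (1 / (2 * (N : ℝ))) ^ 2 * (s * r * ((a * V ^ p4 * b * Z) * Z +
      2 * (a * V ^ p4 + 4 * N ^ 6) * Z * (a * V ^ p4 * b * Z) + (a * V ^ p4 * b * Z) ^ 2)) ≤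
    (N : ℝ) ^ 2 * (a + 2 * (a + 4 * N ^ 6) * a + a ^ 2) * V ^ (2 * p4) * b * Z ^ 2 := by
  have hN0 : (0 : ℝ) < N := by exact_mod_cast Nat.pos_of_neZero N
  set W := V ^ p4 with hW
  have hW1 : 1 ≤ W := one_le_pow₀ hV
  have hW0 : 0 < W := by linarith
  have hW2 : V ^ (2 * p4) = W ^ 2 := by rw [hW, ← pow_mul, mul_comm]
  rw [hW2]
  have hWW : W ≤ W ^ 2 := by nlinarith
  have k1 : (a * W * b * Z) * Z + 2 * (a * W + 4 * N ^ 6) * Z * (a * W * b * Z) +
      (a * W * b * Z) ^ 2 ≤ (a + 2 * (a + 4 * (N : ℝ) ^ 6) * a + a ^ 2) * W ^ 2 * b * Z ^ 2 := by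
    have t1 : (a * W * b * Z) * Z ≤ a * W ^ 2 * b * Z ^ 2 := by
      calc (a * W * b * Z) * Z = (a * b * Z ^ 2) * W := by ring
        _ ≤ (a * b * Z ^ 2) * W ^ 2 := mul_le_mul_of_nonneg_left hWW (by positivity)
        _ = _ := by ring
    have t2 : 2 * (a * W + 4 * (N : ℝ) ^ 6) * Z * (a * W * b * Z) ≤
        2 * (a + 4 * (N : ℝ) ^ 6) * a * W ^ 2 * b * Z ^ 2 := by
      have h1 : a * W + 4 * (N : ℝ) ^ 6 ≤ (a + 4 * (N : ℝ) ^ 6) * W := by
        have : 4 * (N : ℝ) ^ 6 * 1 ≤ 4 * (N : ℝ) ^ 6 * W :=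
          mul_le_mul_of_nonneg_left hW1 (by positivity)
        linarith
      calc 2 * (a * W + 4 * (N : ℝ) ^ 6) * Z * (a * W * b * Z) =
            (2 * a * W * b * Z ^ 2) * (a * W + 4 * (N : ℝ) ^ 6) := by ring
        _ ≤ (2 * a * W * b * Z ^ 2) * ((a + 4 * (N : ℝ) ^ 6) * W) :=
            mul_le_mul_of_nonneg_left h1 (by positivity)
        _ = _ := by ring
    have t3 : (a * W * b * Z) ^ 2 ≤ a ^ 2 * W ^ 2 * b * Z ^ 2 := by
      have h1 : b ^ 2 ≤ b := by nlinarith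
      calc (a * W * b * Z) ^ 2 = (a ^ 2 * W ^ 2 * Z ^ 2) * b ^ 2 := by ring
        _ ≤ (a ^ 2 * W ^ 2 * Z ^ 2) * b := mul_le_mul_of_nonneg_left h1 (by positivity)
        _ = _ := by ring
    calc _ ≤ a * W ^ 2 * b * Z ^ 2 + 2 * (a + 4 * (N : ℝ) ^ 6) * a * W ^ 2 * b * Z ^ 2 +
          a ^ 2 * W ^ 2 * b * Z ^ 2 := add_le_add (add_le_add t1 t2) t3
      _ = _ := by ring
  have k2 : s * r ≤ (2 * (N : ℝ) ^ 2) * (2 * (N : ℝ) ^ 2) := mul_le_mul hs hr hr0 (by positivity)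
  calc _ ≤ (1 / (2 * (N : ℝ))) ^ 2 * ((2 * (N : ℝ) ^ 2) * (2 * (N : ℝ) ^ 2) *
        ((a + 2 * (a + 4 * (N : ℝ) ^ 6) * a + a ^ 2) * W ^ 2 * b * Z ^ 2)) :=
        mul_le_mul_of_nonneg_left (mul_le_mul k2 k1 (by positivity) (by positivity))
          (by positivity)
    _ = _ := by
      field_simp


lemma fin3 {xy xy' x y x' y' Z S T D v1 v2 v : ℝ} (hZ : 0 < Z) (h1 : |xy - xy'| ≤ D * T)
    (h2 : |x * y - x' * y'| ≤ D * T ^ 2) (h3 : |xy' * Z - x' * y' - S * Z ^ 2| ≤ v2)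
    (h4 : D * T * Z + D * T ^ 2 ≤ v1) (h5 : v1 + v2 ≤ v) : |xy * Z - x * y - S * Z ^ 2| ≤ v := by
  have k1 : |xy * Z - xy' * Z| ≤ D * T * Z := by
    rw [← sub_mul, abs_mul, abs_of_pos hZ]
    exact mul_le_mul_of_nonneg_right h1 hZ.le
  have a1 := abs_le.1 k1
  have a2 := abs_le.1 h2
  have a3 := abs_le.1 h3
  rw [abs_le]
  constructor <;> linarith [a1.1, a1.2, a2.1, a2.2, a3.1, a3.2]

/-- **W5** -/
theorem t_W5 (hW1 : S_W1) (hW4 : S_W4) (hW5a : S_W5a) (hW5b : S_W5b) (hR6 : S_R6)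
    (hQ12 : S_Q12) : S_W5 := by
  intro N k _ hk _ _ μ _ _
  obtain ⟨χ, hχ⟩ := hW1 N k hk
  obtain ⟨C4, p4, hC4, h4⟩ := hW4 N k hk χ hχ μ
  obtain ⟨C5, p5, hC5, h5⟩ := hW5b N
  obtain ⟨C12, hC12, h12⟩ := hQ12 N k hk μ
  set a : ℝ := C4 * 3 ^ 12 with ha
  have ha0 : 0 < a := by positivity
  refine ⟨4 * (1 + N ^ 5) * C5 * ((1 + C12) * 15625) ^ 2 +
    N ^ 2 * (a + 2 * (a + 4 * N ^ 6) * a + a ^ 2), p5 + 6 + 2 * p4, by positivity, ?_⟩
  intro m l R _ _ _ hR β hβ i j i' j' hij hij' x y X Y hX hY A hAdef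
  set V := vol (2 * m) (2 * m) l with hV
  have hV1 : 1 ≤ V := vol_ge.1
  have hV0 : 0 ≤ V := zero_le_one.trans hV1
  have hβ0 : 0 < β := by linarith
  have hN0 : (0 : ℝ) < N := by exact_mod_cast Nat.pos_of_neZero N
  have hsb : 0 < Real.sqrt β := Real.sqrt_pos.2 hβ0
  have hA : Pos A := by
    rw [hAdef]
    exact AA_pos μ k R β
  set Z := Sw N (2 * m) (2 * m) R (fun q => ∫ U, Real.exp (-(β * Sq k q U))
    ∂(Measure.pi fun _ : Link (2 * m) (2 * m) l => μ)) with hZ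
  have hZ0 : 0 < Z := Z_pos μ k R β
  have hAZ : A (fun _ _ => 1) = Z := by
    rw [hAdef, hZ]
    simp only [one_mul]
  -- the bound of the variances
  have hK : ∀ (α : Col N) (w : ℂ), α ∈ Cz N → w ∈ ({1, Complex.I} : Finset ℂ) → ∀ i j : Fin 4,
      i < j → ∀ y : Site (2 * m) (2 * m) l, |cc χ k (pf α w i j y)| ≤ a * V ^ p4 + 4 * N ^ 6 := by
    intro α w hα hw i j hij y
    have hw1 : ‖w‖ = 1 := by
      rw [Finset.mem_insert, Finset.mem_singleton] at hw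
      rcases hw with h | h <;> rw [h] <;> simp
    have g := (h4 m l R hR (pf α w i j y) (fun α' a b x =>
      pf_anti w hij.ne y α' a b x) 2 (fun α' a b x =>
      (pf_norm hw1 i j y α' a b x).trans (by norm_num)) 1 le_rfl _ rfl _ rfl).1
    have hZ1 := Z_pos (N := N) (n := 2 * m) (L := 2 * m) (l := l) μ k R 1
    set Z1 := Sw N (2 * m) (2 * m) R (fun q => ∫ U, Real.exp (-(1 * Sq k q U))
      ∂(Measure.pi fun _ : Link (2 * m) (2 * m) l => μ)) with hZ1'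
    have hP := AA_pos (N := N) (n := 2 * m) (L := 2 * m) (l := l) μ k R 1
    have hb : ∀ (q : ZMod (2 * m) × ZMod (2 * m) → ZMod N) (U : Link (2 * m) (2 * m) l → SU N),
        1 * Ph k q (pf α w i j y) U ^ 2 ≤ 4 * N ^ 6 * 1 := by
      intro q U
      rw [one_mul, mul_one, Ph_pf k q hα w hij]
      refine le_trans ?_ (ph2_sq_le k q α U (i := i) (j := j) y).2
      rw [← sq_abs]
      refine pow_le_pow_left₀ (abs_nonneg _) ((Complex.abs_re_le_norm _).trans ?_) 2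
      rw [norm_mul, hw1, one_mul]
    have e1 := hP.mono (fun q U => 1 * Ph k q (pf α w i j y) U ^ 2) (fun q U => 4 * N ^ 6 * 1)
      (fun q => continuous_const.mul ((Run7.h630.QF.cont_Ph k q _).pow 2))
      (fun q => continuous_const) hb
    have e2 := hP.mono (fun q U => 0 * 1) (fun q U => 1 * Ph k q (pf α w i j y) U ^ 2)
      (fun q => continuous_const)
      (fun q => continuous_const.mul ((Run7.h630.QF.cont_Ph k q _).pow 2))
      (fun q U => by
        rw [zero_mul, one_mul]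
        exact sq_nonneg _)
    rw [hP.mul (4 * N ^ 6) (fun _ _ => 1)] at e1
    rw [hP.mul 0 (fun _ _ => 1), zero_mul] at e2
    rw [Real.one_rpow] at g
    have e3 : Sw N (2 * m) (2 * m) R (fun q => ∫ U, 1 * Real.exp (-(1 * Sq k q U))
      ∂(Measure.pi fun _ : Link (2 * m) (2 * m) l => μ)) = Z1 := by
      rw [hZ1']
      simp only [one_mul]
    rw [e3] at e1
    have g' := abs_le.1 g
    have e4 : |cc χ k (pf α w i j y)| * Z1 ≤ (a * V ^ p4 + 4 * N ^ 6) * Z1 := by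
      have e5 : C4 * V ^ p4 * (1 + 2) ^ 12 * 1 * Z1 = a * V ^ p4 * Z1 := by
        rw [ha]
        ring
      rw [e5] at g'
      rw [← abs_of_pos hZ1, ← abs_mul, abs_of_pos hZ1, abs_le]
      constructor <;> nlinarith
    exact le_of_mul_le_mul_right e4 hZ1
  -- the moments of the fields
  set b4 : ℝ := β ^ (-(1 / 4) : ℝ) with hb4
  have hb0 : 0 ≤ b4 := Real.rpow_nonneg hβ0.le _
  have hb1 : b4 ≤ 1 := Real.rpow_le_one_of_one_le_of_nonpos hβ (by norm_num)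
  set E : ℝ := a * V ^ p4 * b4 * Z with hE
  have hW : ∀ f : Col N → Fin 4 → Fin 4 → Site (2 * m) (2 * m) l → ℂ,
      (∀ α i j x, f α j i x = -f α i j x) → (∀ α i j x, ‖f α i j x‖ ≤ 2) →
      |A (fun q U => (Real.sqrt β * Ph k q f U) ^ 2) - cc χ k f * Z| ≤ E ∧
      |A (fun q U => (Real.sqrt β * Ph k q f U) ^ 4) - 3 * cc χ k f ^ 2 * Z| ≤ E := by
    intro f hf hf2
    have g := h4 m l R hR f hf 2 hf2 β hβ Z hZ E (by
      rw [hE, ha]
      ring)
    have e2 : ∀ y : ℝ, (Real.sqrt β * y) ^ 2 = β * y ^ 2 := fun y => by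
      rw [mul_pow, Real.sq_sqrt hβ0.le]
    have e4 : ∀ y : ℝ, (Real.sqrt β * y) ^ 4 = β ^ 2 * y ^ 4 := fun y => by
      rw [show (Real.sqrt β * y) ^ 4 = ((Real.sqrt β * y) ^ 2) ^ 2 by ring, e2]
      ring
    rw [hAdef]
    simp only [e2, e4]
    exact g
  have hw1 : ∀ w ∈ ({1, Complex.I} : Finset ℂ), ‖w‖ = 1 := by
    intro w hw
    rw [Finset.mem_insert, Finset.mem_singleton] at hw
    rcases hw with h | h <;> rw [h] <;> simp
  have cF : ∀ (f : Col N → Fin 4 → Fin 4 → Site (2 * m) (2 * m) l → ℂ)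
      (q : ZMod (2 * m) × ZMod (2 * m) → ZMod N),
      Continuous fun U : Link (2 * m) (2 * m) l → SU N => Real.sqrt β * Ph k q f U := fun f q =>
    continuous_const.mul (Run7.h630.QF.cont_Ph k q f)
  -- one pair
  have hpair : ∀ a' ∈ Cz N ×ˢ ({1, Complex.I} : Finset ℂ),
      ∀ b' ∈ Cz N ×ˢ ({1, Complex.I} : Finset ℂ),
      |A (fun q U => (Real.sqrt β * Ph k q (pf a'.1 a'.2 i j x) U) ^ 2 *
        (Real.sqrt β * Ph k q (pf b'.1 b'.2 i' j' y) U) ^ 2) * Z -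
      A (fun q U => (Real.sqrt β * Ph k q (pf a'.1 a'.2 i j x) U) ^ 2) *
        A (fun q U => (Real.sqrt β * Ph k q (pf b'.1 b'.2 i' j' y) U) ^ 2) -
      ct χ k (pf a'.1 a'.2 i j x) (pf b'.1 b'.2 i' j' y) ^ 2 / 2 * Z ^ 2| ≤
      E * Z + 2 * (a * V ^ p4 + 4 * N ^ 6) * Z * E + E ^ 2 := by
    intro a' ha' b' hb'
    rw [Finset.mem_product] at ha' hb'
    have n1 := pf_norm (α := a'.1) (hw1 _ ha'.2) i j x
    have n2 := pf_norm (α := b'.1) (hw1 _ hb'.2) i' j' y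
    have s1 := pf_anti (α := a'.1) a'.2 hij.ne x
    have s2 := pf_anti (α := b'.1) b'.2 hij'.ne y
    obtain ⟨c1, c2⟩ := cc_ct χ k (pf a'.1 a'.2 i j x) (pf b'.1 b'.2 i' j' y)
    set f := pf a'.1 a'.2 i j x with hf
    set g := pf b'.1 b'.2 i' j' y with hg
    have hlin : ∀ r : ℝ, ‖(r : ℂ)‖ = 1 →
        (∀ α i j x, (fun α i j x => f α i j x + r * g α i j x) α j i x =
          -(fun α i j x => f α i j x + r * g α i j x) α i j x) ∧
        (∀ α i j x, ‖(fun α i j x => f α i j x + r * g α i j x) α i j x‖ ≤ 2) := by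
      intro r hr
      constructor
      · intro α a b z
        simp only
        rw [s1 α a b z, s2 α a b z]
        ring
      · intro α a b z
        simp only
        refine (norm_add_le _ _).trans ?_
        rw [norm_mul, hr, one_mul]
        have := n1 α a b z
        have := n2 α a b z
        linarith
    obtain ⟨l1, l2⟩ := hlin 1 (by simp)
    obtain ⟨l3, l4⟩ := hlin (-1) (by simp)
    have w1 := hW f s1 fun α a b z => (n1 α a b z).trans (by norm_num)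
    have w2 := hW g s2 fun α a b z => (n2 α a b z).trans (by norm_num)
    have w3 := (hW _ l1 l2).2
    have w4 := (hW _ l3 l4).2
    rw [c1] at w3
    rw [c2] at w4
    have e3 : (fun (q : ZMod (2 * m) × ZMod (2 * m) → ZMod N) (U : Link (2 * m) (2 * m) l → SU N) =>
        (Real.sqrt β * Ph k q (fun α i j x => f α i j x + ((1 : ℝ) : ℂ) * g α i j x) U) ^ 4) =
        fun q U => (Real.sqrt β * Ph k q f U + Real.sqrt β * Ph k q g U) ^ 4 := by
      funext q U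
      rw [Ph_lin]
      ring
    have e4 : (fun (q : ZMod (2 * m) × ZMod (2 * m) → ZMod N) (U : Link (2 * m) (2 * m) l → SU N) =>
        (Real.sqrt β * Ph k q (fun α i j x => f α i j x + ((-1 : ℝ) : ℂ) * g α i j x) U) ^ 4) =
        fun q U => (Real.sqrt β * Ph k q f U - Real.sqrt β * Ph k q g U) ^ 4 := by
      funext q U
      rw [Ph_lin]
      ring
    rw [e3] at w3
    rw [e4] at w4
    exact hA.two (F := fun q U => Real.sqrt β * Ph k q f U)
      (G := fun q U => Real.sqrt β * Ph k q g U) (cF f) (cF g) rfl rfl w1.1 w1.2 w2.1 w2.2 w3 w4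
      (hK _ _ ha'.1 ha'.2 i j hij x) (hK _ _ hb'.1 hb'.2 i' j' hij' y) hZ0.le
  have hmany := hA.many (Cz N ×ˢ ({1, Complex.I} : Finset ℂ)) (Cz N ×ˢ ({1, Complex.I} : Finset ℂ))
    (F := fun (a' : Col N × ℂ) q U => Real.sqrt β * Ph k q (pf a'.1 a'.2 i j x) U)
    (G := fun (b' : Col N × ℂ) q U => Real.sqrt β * Ph k q (pf b'.1 b'.2 i' j' y) U)
    (fun a' q => cF _ q) (fun b' q => cF _ q)
    (t := fun a' b' => ct χ k (pf a'.1 a'.2 i j x) (pf b'.1 b'.2 i' j' y))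
    (c := 1 / (2 * (N : ℝ))) hpair
  -- the sum of the squares of the covariances
  have hsum : ∑ a' ∈ Cz N ×ˢ ({1, Complex.I} : Finset ℂ),
      ∑ b' ∈ Cz N ×ˢ ({1, Complex.I} : Finset ℂ),
        ct χ k (pf a'.1 a'.2 i j x) (pf b'.1 b'.2 i' j' y) ^ 2 =
      4 * N ^ 2 * ∑ α ∈ Cz N, ‖kr k α i j i' j' x y‖ ^ 2 := by
    rw [← hW5a N (2 * m) (2 * m) l k hk χ hχ.1 hχ.2.1 i j i' j' hij hij' x y,
      Finset.sum_product]
    refine Finset.sum_congr rfl fun α _ => Finset.sum_congr rfl fun w _ => ?_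
    rw [Finset.sum_product]
  rw [hsum] at hmany
  have hcard : (((Cz N ×ˢ ({1, Complex.I} : Finset ℂ)).card : ℕ) : ℝ) ≤ 2 * (N : ℝ) ^ 2 := by
    rw [Finset.card_product, Nat.cast_mul, card_one_I]
    have := card_Cz (N := N)
    linarith
  have hmany2 := hmany.trans (fin2 ha0 hV1 hb0 hb1 (Nat.cast_nonneg _) hcard hcard hZ0)
  -- the replacement of the energies
  have hX' : ∀ (i j : Fin 4), i < j → ∀ (x : Site (2 * m) (2 * m) l)
      (q : ZMod (2 * m) × ZMod (2 * m) → ZMod N) (U : Link (2 * m) (2 * m) l → SU N),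
      1 / (2 * (N : ℝ)) * ∑ a' ∈ Cz N ×ˢ ({1, Complex.I} : Finset ℂ),
        (Real.sqrt β * Ph k q (pf a'.1 a'.2 i j x) U) ^ 2 =
      β / (2 * N) * ∑ α ∈ Cz N, ‖ph2 k q α U i j x‖ ^ 2 := by
    intro i j hij x q U
    rw [sum_sq k q U hij x hβ0.le]
    ring
  have hX'0 : ∀ (i j : Fin 4), i < j → ∀ (x : Site (2 * m) (2 * m) l)
      (q : ZMod (2 * m) × ZMod (2 * m) → ZMod N) (U : Link (2 * m) (2 * m) l → SU N),
      0 ≤ 1 / (2 * (N : ℝ)) * ∑ a' ∈ Cz N ×ˢ ({1, Complex.I} : Finset ℂ),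
        (Real.sqrt β * Ph k q (pf a'.1 a'.2 i j x) U) ^ 2 := by
    intro i j hij x q U
    exact mul_nonneg (by positivity) (Finset.sum_nonneg fun _ _ => sq_nonneg _)
  have hX's : ∀ (i j : Fin 4), i < j → ∀ (x : Site (2 * m) (2 * m) l)
      (q : ZMod (2 * m) × ZMod (2 * m) → ZMod N) (U : Link (2 * m) (2 * m) l → SU N),
      1 / (2 * (N : ℝ)) * ∑ a' ∈ Cz N ×ˢ ({1, Complex.I} : Finset ℂ),
        (Real.sqrt β * Ph k q (pf a'.1 a'.2 i j x) U) ^ 2 ≤ (N : ℝ) ^ 5 * (β * Sq k q U) := by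
    intro i j hij x q U
    rw [hX' i j hij x q U]
    have h1 : ∑ α ∈ Cz N, ‖ph2 k q α U i j x‖ ^ 2 ≤ (N : ℝ) ^ 2 * (2 * N ^ 4 * Sq k q U) := by
      refine (Finset.sum_le_sum fun α _ => (ph2_sq_le k q α U (i := i) (j := j) x).1).trans ?_
      rw [Finset.sum_const, nsmul_eq_mul]
      refine mul_le_mul_of_nonneg_right card_Cz ?_
      have := two_Sq_nonneg k q U
      have h2 : 2 * (N : ℝ) ^ 4 * Sq k q U = N ^ 4 * (2 * Sq k q U) := by ring
      rw [h2]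
      positivity
    calc β / (2 * N) * ∑ α ∈ Cz N, ‖ph2 k q α U i j x‖ ^ 2 ≤
          β / (2 * N) * ((N : ℝ) ^ 2 * (2 * N ^ 4 * Sq k q U)) :=
          mul_le_mul_of_nonneg_left h1 (by positivity)
      _ = _ := by
        field_simp
  have hXs : ∀ (i j : Fin 4) (x : Site (2 * m) (2 * m) l)
      (q : ZMod (2 * m) × ZMod (2 * m) → ZMod N) (U : Link (2 * m) (2 * m) l → SU N),
      0 ≤ β * ((N : ℝ) - (zz N k q x i j * trace (plaq U x i j).1).re) ∧
      β * ((N : ℝ) - (zz N k q x i j * trace (plaq U x i j).1).re) ≤ β * Sq k q U := by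
    intro i j x q U
    have h1 := Fc_sq k q U x i j
    have h2 : ‖Fc k q U x i j‖ ^ 2 ≤ 2 * Sq k q U := by
      rw [← ss_sq']
      exact pow_le_pow_left₀ (norm_nonneg _) (Fc_le k q U x i j) 2
    have h3 := sq_nonneg ‖Fc k q U x i j‖
    constructor
    · exact mul_nonneg hβ0.le (by linarith)
    · exact mul_le_mul_of_nonneg_left (by linarith) hβ0.le
  have hXX : ∀ (i j : Fin 4), i < j → ∀ (x : Site (2 * m) (2 * m) l)
      (q : ZMod (2 * m) × ZMod (2 * m) → ZMod N) (U : Link (2 * m) (2 * m) l → SU N),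
      |β * ((N : ℝ) - (zz N k q x i j * trace (plaq U x i j).1).re) -
        1 / (2 * (N : ℝ)) * ∑ a' ∈ Cz N ×ˢ ({1, Complex.I} : Finset ℂ),
        (Real.sqrt β * Ph k q (pf a'.1 a'.2 i j x) U) ^ 2| ≤
      C5 * V ^ p5 / Real.sqrt β * (1 + (β * Sq k q U) ^ 2) := by
    intro i j hij x q U
    rw [hX' i j hij x q U]
    exact h5 (2 * m) (2 * m) l k hk q U x i j hij β hβ
  have cX : ∀ (i j : Fin 4) (x : Site (2 * m) (2 * m) l)
      (q : ZMod (2 * m) × ZMod (2 * m) → ZMod N),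
      Continuous fun U : Link (2 * m) (2 * m) l → SU N =>
        β * ((N : ℝ) - (zz N k q x i j * trace (plaq U x i j).1).re) := fun i j x q =>
    continuous_const.mul (continuous_const.sub (Complex.continuous_re.comp
      (continuous_const.mul (cont_plaqv x i j).matrix_trace)))
  have cX' : ∀ (i j : Fin 4) (x : Site (2 * m) (2 * m) l)
      (q : ZMod (2 * m) × ZMod (2 * m) → ZMod N),
      Continuous fun U : Link (2 * m) (2 * m) l → SU N =>
        1 / (2 * (N : ℝ)) * ∑ a' ∈ Cz N ×ˢ ({1, Complex.I} : Finset ℂ),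
        (Real.sqrt β * Ph k q (pf a'.1 a'.2 i j x) U) ^ 2 := fun i j x q =>
    continuous_const.mul (continuous_finsetSum _ fun a' _ => (cF _ q).pow 2)
  have hpert := hA.pert (X := X) (Y := Y)
    (X' := fun q U => 1 / (2 * (N : ℝ)) * ∑ a' ∈ Cz N ×ˢ ({1, Complex.I} : Finset ℂ),
        (Real.sqrt β * Ph k q (pf a'.1 a'.2 i j x) U) ^ 2)
    (Y' := fun q U => 1 / (2 * (N : ℝ)) * ∑ a' ∈ Cz N ×ˢ ({1, Complex.I} : Finset ℂ),
        (Real.sqrt β * Ph k q (pf a'.1 a'.2 i' j' y) U) ^ 2)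
    (s := fun q U => β * Sq k q U) (D := C5 * V ^ p5 / Real.sqrt β) (B := (N : ℝ) ^ 5)
    (T := A (fun q U => 1 + (β * Sq k q U) ^ 3))
    (fun q => by rw [hX]; exact cX i j x q) (cX' i j x) (fun q => by rw [hY]; exact cX i' j' y q)
    (cX' i' j' y) (fun q => continuous_const.mul (cont_Sq k q)) (by positivity) (by positivity)
    (fun q U => (hXs 0 0 x q U).1.trans (hXs 0 0 x q U).2)
    (hX'0 i j hij x) (hX's i j hij x) (fun q U => by rw [hX]; exact hXX i j hij x q U)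
    (fun q U => by rw [hY]; exact (hXs i' j' y q U).1)
    (fun q U => by rw [hY]; exact (hXs i' j' y q U).2)
    (fun q U => by rw [hY]; exact hXX i' j' hij' y q U) rfl
  have hT : A (fun q U => 1 + (β * Sq k q U) ^ 3) ≤
      (1 + C12 * (V * (1 + Real.log β)) ^ 3) * Z := by
    rw [hAdef]
    exact mom3 hR6 hR (h12 m m l β hβ)
  have hT0 : 0 ≤ A (fun q U => 1 + (β * Sq k q U) ^ 3) := by
    rw [← hA.zero]
    refine hA.mono _ _ (fun q => continuous_const)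
      (fun q => continuous_const.add ((continuous_const.mul (cont_Sq k q)).pow 3)) fun q U => ?_
    have := pow_nonneg ((hXs 0 0 x q U).1.trans (hXs 0 0 x q U).2) 3
    linarith
  have hfin := fin1 (N := N) (p5 := p5) hC5 hC12 hV1 hβ hZ0 hT0 hT
  -- the assembly
  rw [hAZ]
  set X' : (ZMod (2 * m) × ZMod (2 * m) → ZMod N) → (Link (2 * m) (2 * m) l → SU N) → ℝ :=
    fun q U => 1 / (2 * (N : ℝ)) * ∑ a' ∈ Cz N ×ˢ ({1, Complex.I} : Finset ℂ),
        (Real.sqrt β * Ph k q (pf a'.1 a'.2 i j x) U) ^ 2 with hX'd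
  set Y' : (ZMod (2 * m) × ZMod (2 * m) → ZMod N) → (Link (2 * m) (2 * m) l → SU N) → ℝ :=
    fun q U => 1 / (2 * (N : ℝ)) * ∑ a' ∈ Cz N ×ˢ ({1, Complex.I} : Finset ℂ),
        (Real.sqrt β * Ph k q (pf a'.1 a'.2 i' j' y) U) ^ 2 with hY'd
  have e1 : (1 / (2 * (N : ℝ))) ^ 2 / 2 * (4 * (N : ℝ) ^ 2 *
      ∑ α ∈ Cz N, ‖kr k α i j i' j' x y‖ ^ 2) = 1 / 2 * ∑ α ∈ Cz N, ‖kr k α i j i' j' x y‖ ^ 2 := by
    field_simp
    ring
  rw [e1] at hmany2
  rw [← hb4] at hfin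
  have v0 : ∀ r : ℕ, r ≤ p5 + 6 + 2 * p4 → V ^ r ≤ V ^ (p5 + 6 + 2 * p4) := fun r hr =>
    pow_le_pow_right₀ hV1 hr
  have v1 : 4 * (1 + (N : ℝ) ^ 5) * C5 * ((1 + C12) * 15625) ^ 2 * V ^ (p5 + 6) * b4 * Z ^ 2 ≤
      4 * (1 + (N : ℝ) ^ 5) * C5 * ((1 + C12) * 15625) ^ 2 * V ^ (p5 + 6 + 2 * p4) * b4 * Z ^ 2 := by
    have h := v0 (p5 + 6) (by omega)
    gcongr
  have v2 : (N : ℝ) ^ 2 * (a + 2 * (a + 4 * N ^ 6) * a + a ^ 2) * V ^ (2 * p4) * b4 * Z ^ 2 ≤
      (N : ℝ) ^ 2 * (a + 2 * (a + 4 * N ^ 6) * a + a ^ 2) * V ^ (p5 + 6 + 2 * p4) * b4 * Z ^ 2 := by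
    have h := v0 (2 * p4) (by omega)
    gcongr
  have e2 : (4 * (1 + (N : ℝ) ^ 5) * C5 * ((1 + C12) * 15625) ^ 2 +
      N ^ 2 * (a + 2 * (a + 4 * N ^ 6) * a + a ^ 2)) * V ^ (p5 + 6 + 2 * p4) * b4 * Z ^ 2 =
      4 * (1 + (N : ℝ) ^ 5) * C5 * ((1 + C12) * 15625) ^ 2 * V ^ (p5 + 6 + 2 * p4) * b4 * Z ^ 2 +
      (N : ℝ) ^ 2 * (a + 2 * (a + 4 * N ^ 6) * a + a ^ 2) * V ^ (p5 + 6 + 2 * p4) * b4 * Z ^ 2 := by
    ring
  have e3 : 1 / 2 * ∑ α ∈ Cz N, ‖kr k α i j i' j' x y‖ ^ 2 * Z ^ 2 =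
      (1 / 2 * ∑ α ∈ Cz N, ‖kr k α i j i' j' x y‖ ^ 2) * Z ^ 2 := by
    rw [← Finset.sum_mul]
    ring
  rw [e2, e3]
  exact fin3 hZ0 hpert.1 hpert.2 hmany2 hfin (add_le_add v1 v2)

end

end Run7.h882.QW
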