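import Pool.Agent.Run7.h630.QW.Gen
import Pool.Agent.Run7.h882.QW.W5

/-!
# V5: the covariances of the bilinear local fields on the torus (project QW of helper630)
-/

open MeasureTheory Matrix Filter Topology
open scoped Matrix.Norms.Frobenius ComplexConjugate

namespace Run7.h882.QW

open Run7.h4.YM Run7.h630.WL Run7.h630.MQ Run7.h630.QC Run7.h630.ML Run7.h630.QF Run7.h630.QW
open Run7.h370.MQ Run7.h370.QC

set_option linter.unusedSectionVars false
set_option linter.style.haveILetI false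

noncomputable section

/-! ### the replacement of the local fields by the squares of the fields -/

lemma Pos.pert2 {Q Ω : Type*} [TopologicalSpace Ω] {A : (Q → Ω → ℝ) → ℝ} (hA : Pos A)
    {X X' Y Y' s : Q → Ω → ℝ} (cX : ∀ q, Continuous (X q))
    (cX' : ∀ q, Continuous (X' q)) (cY : ∀ q, Continuous (Y q)) (cY' : ∀ q, Continuous (Y' q))
    (cs : ∀ q, Continuous (s q)) {D B T : ℝ} (hD : 0 ≤ D) (hB : 0 ≤ B)
    (hs : ∀ q U, 0 ≤ s q U)
    (hX'0 : ∀ q U, 0 ≤ X' q U) (hX's : ∀ q U, X' q U ≤ B * s q U)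
    (hXX : ∀ q U, |X q U - X' q U| ≤ D * (1 + s q U ^ 2))
    (hY0 : ∀ q U, 0 ≤ Y q U) (hYs : ∀ q U, Y q U ≤ B * s q U)
    (hYY : ∀ q U, |Y q U - Y' q U| ≤ D * (1 + s q U ^ 2))
    (hT : A (fun q U => 1 + s q U ^ 3) = T) :
    |A (fun q U => X q U * Y q U) - A (fun q U => X' q U * Y' q U)| ≤ 4 * D * B * T ∧
    |A X * A Y - A X' * A Y'| ≤ 4 * D * B * T ^ 2 := by
  have cs3 : ∀ q, Continuous fun U => 1 + s q U ^ 3 := fun q => continuous_const.add ((cs q).pow 3)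
  have k1 : ∀ x : ℝ, 0 ≤ x → x ≤ 1 + x ^ 3 := by
    intro x hx
    rcases le_total x 1 with h | h
    · have := pow_nonneg hx 3
      linarith
    · have := pow_le_pow_right₀ h (show 1 ≤ 3 by norm_num)
      rw [pow_one] at this
      linarith
  have k2 : ∀ x : ℝ, 0 ≤ x → 1 + x ^ 2 ≤ 2 * (1 + x ^ 3) := by
    intro x hx
    rcases le_total x 1 with h | h
    · have h1 := pow_nonneg hx 3
      have h2 : x ^ 2 ≤ 1 := pow_le_one₀ hx h
      linarith
    · have := pow_le_pow_right₀ h (show 2 ≤ 3 by norm_num)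
      have h1 := pow_nonneg hx 3
      linarith
  have k3 : ∀ x : ℝ, 0 ≤ x → (1 + x ^ 2) * x ≤ 2 * (1 + x ^ 3) := by
    intro x hx
    have h1 := k1 x hx
    have h2 := pow_nonneg hx 3
    nlinarith
  have hT0 : 0 ≤ T := by
    rw [← hT, ← hA.zero]
    refine hA.mono _ _ (fun q => continuous_const) cs3 fun q U => ?_
    have := pow_nonneg (hs q U) 3
    linarith
  constructor
  · have h1 := hA.abs_sub (H := fun q U => X q U * Y q U) (G := fun q U => X' q U * Y' q U)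
      (K := fun q U => (4 * D * B) * (1 + s q U ^ 3))
      (fun q => (cX q).mul (cY q)) (fun q => (cX' q).mul (cY' q))
      (fun q => continuous_const.mul (cs3 q)) fun q U => by
        have e : X q U * Y q U - X' q U * Y' q U =
          (X q U - X' q U) * Y q U + X' q U * (Y q U - Y' q U) := by ring
        rw [e]
        refine (abs_add_le _ _).trans ?_
        rw [abs_mul, abs_mul, abs_of_nonneg (hY0 q U), abs_of_nonneg (hX'0 q U)]
        have h2 : |X q U - X' q U| * Y q U ≤ D * (1 + s q U ^ 2) * (B * s q U) :=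
          mul_le_mul (hXX q U) (hYs q U) (hY0 q U)
            (mul_nonneg hD (by nlinarith [sq_nonneg (s q U)]))
        have h3 : X' q U * |Y q U - Y' q U| ≤ B * s q U * (D * (1 + s q U ^ 2)) :=
          mul_le_mul (hX's q U) (hYY q U) (abs_nonneg _) (mul_nonneg hB (hs q U))
        have h4 := mul_le_mul_of_nonneg_left (k3 _ (hs q U))
          (mul_nonneg (mul_nonneg zero_le_two hD) hB)
        calc _ ≤ D * (1 + s q U ^ 2) * (B * s q U) + B * s q U * (D * (1 + s q U ^ 2)) :=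
              add_le_add h2 h3
          _ = 2 * D * B * ((1 + s q U ^ 2) * s q U) := by ring
          _ ≤ 2 * D * B * (2 * (1 + s q U ^ 3)) := h4
          _ = _ := by ring
    rw [hA.mul, hT] at h1
    exact h1
  · have hXY : ∀ {X X' : Q → Ω → ℝ}, (∀ q, Continuous (X q)) → (∀ q, Continuous (X' q)) →
        (∀ q U, |X q U - X' q U| ≤ D * (1 + s q U ^ 2)) → |A X - A X'| ≤ 2 * D * T := by
      intro X X' c1 c2 h
      have h1 := hA.abs_sub c1 c2 (K := fun q U => (2 * D) * (1 + s q U ^ 3))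
        (fun q => continuous_const.mul (cs3 q)) fun q U => (h q U).trans (by
          have := mul_le_mul_of_nonneg_left (k2 _ (hs q U)) hD
          linarith)
      rw [hA.mul, hT] at h1
      exact h1
    have h1 := hXY cX cX' hXX
    have h2 := hXY cY cY' hYY
    have hBT : ∀ {X' : Q → Ω → ℝ}, (∀ q, Continuous (X' q)) → (∀ q U, X' q U ≤ B * s q U) →
        A X' ≤ B * T := by
      intro X' cX' hX's
      rw [← hT, ← hA.mul]
      exact hA.mono _ _ cX' (fun q => continuous_const.mul (cs3 q)) fun q U =>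
        (hX's q U).trans (mul_le_mul_of_nonneg_left (k1 _ (hs q U)) hB)
    have h3 : A Y ≤ B * T := hBT cY hYs
    have h3' : 0 ≤ A Y := by
      rw [← hA.zero]
      exact hA.mono _ _ (fun q => continuous_const) cY hY0
    have h4 : A X' ≤ B * T := hBT cX' hX's
    have h4' : 0 ≤ A X' := by
      rw [← hA.zero]
      exact hA.mono _ _ (fun q => continuous_const) cX' hX'0
    have e : A X * A Y - A X' * A Y' = (A X - A X') * A Y + A X' * (A Y - A Y') := by ring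
    rw [e]
    refine (abs_add_le _ _).trans ?_
    rw [abs_mul, abs_mul, abs_of_nonneg h3', abs_of_nonneg h4']
    have h5 : |A X - A X'| * A Y ≤ 2 * D * T * (B * T) :=
      mul_le_mul h1 h3 h3' (by positivity)
    have h6 : A X' * |A Y - A Y'| ≤ B * T * (2 * D * T) :=
      mul_le_mul h4 h2 (abs_nonneg _) (by positivity)
    calc _ ≤ 2 * D * T * (B * T) + B * T * (2 * D * T) := add_le_add h5 h6
      _ = _ := by ring

variable {N n L l : ℕ}

/-! ### the fields of a site -/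

section alg

variable [NeZero N] [NeZero n] [NeZero L] [NeZero l]

/-- the sum of the components -/
def Su (k : ℕ) (q : ZMod n × ZMod L → ZMod N) (α : Col N) (U : Link n L l → SU N)
    (u : Fin 4 → Fin 4 → ℝ) (x : Site n L l) : ℂ :=
  ∑ i : Fin 4, ∑ j ∈ Finset.Ioi i, (u i j : ℂ) * ph2 k q α U i j x

lemma Ph_pu (k : ℕ) (q : ZMod n × ZMod L → ZMod N) {α : Col N} (hα : α ∈ Cz N) (w : ℂ)
    (u : Fin 4 → Fin 4 → ℝ) (y : Site n L l) (U : Link n L l → SU N) :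
    Ph k q (pu α w u y) U = (w * Su k q α U u y).re := by
  unfold Ph
  rw [Finset.sum_eq_single_of_mem α hα, Finset.sum_eq_single_of_mem y (Finset.mem_univ _)]
  · unfold Su
    rw [Finset.mul_sum, Complex.re_sum]
    refine Finset.sum_congr rfl fun i _ => ?_
    rw [Finset.mul_sum, Complex.re_sum]
    refine Finset.sum_congr rfl fun j hj => ?_
    unfold pu
    rw [if_pos ⟨rfl, rfl⟩, if_pos (Finset.mem_Ioi.1 hj), mul_assoc]
  · intro x _ hx
    refine Finset.sum_eq_zero fun a _ => Finset.sum_eq_zero fun b _ => ?_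
    unfold pu
    rw [if_neg (fun h => hx h.2)]
    simp
  · intro α' _ hα'
    refine Finset.sum_eq_zero fun x _ => Finset.sum_eq_zero fun a _ =>
      Finset.sum_eq_zero fun b _ => ?_
    unfold pu
    rw [if_neg (fun h => hα' h.1)]
    simp

lemma pu_anti {α : Col N} (w : ℂ) (u : Fin 4 → Fin 4 → ℝ) (y : Site n L l) (α' : Col N)
    (a b : Fin 4) (x : Site n L l) : pu α w u y α' b a x = -pu α w u y α' a b x := by
  unfold pu
  split_ifs with h0 h1 h2 h2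
  · exact absurd h1 (lt_asymm h2)
  · push_cast
    ring
  · push_cast
    ring
  · simp
  · rw [neg_zero]

lemma pu_norm {α : Col N} {w : ℂ} (hw : ‖w‖ = 1) {u : Fin 4 → Fin 4 → ℝ}
    (hu : ∀ i j, |u i j| ≤ 1) (y : Site n L l) (α' : Col N)
    (a b : Fin 4) (x : Site n L l) : ‖pu α w u y α' a b x‖ ≤ 1 := by
  unfold pu
  split_ifs
  · rw [norm_mul, hw, one_mul, Complex.norm_real]
    exact hu a b
  · rw [norm_mul, hw, one_mul, Complex.norm_real, norm_neg]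
    exact hu b a
  · simp
  · simp

lemma sum16 {c : ℝ} (hc : 0 ≤ c) {f : Fin 4 → Fin 4 → ℝ} (hf : ∀ i j, f i j ≤ c) :
    ∑ i : Fin 4, ∑ j ∈ Finset.Ioi i, f i j ≤ 16 * c := by
  have h1 : ∀ i : Fin 4, ∑ j ∈ Finset.Ioi i, f i j ≤ 4 * c := by
    intro i
    refine (Finset.sum_le_sum fun j _ => hf i j).trans ?_
    rw [Finset.sum_const, nsmul_eq_mul]
    refine mul_le_mul_of_nonneg_right ?_ hc
    have : (Finset.Ioi i).card ≤ 4 := (Finset.card_le_univ _).trans (by simp)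
    exact_mod_cast this
  refine (Finset.sum_le_sum fun i _ => h1 i).trans ?_
  rw [Finset.sum_const, Finset.card_univ, Fintype.card_fin, nsmul_eq_mul]
  push_cast
  linarith

lemma Su_sq_le (k : ℕ) (q : ZMod n × ZMod L → ZMod N) (α : Col N) (U : Link n L l → SU N)
    {u : Fin 4 → Fin 4 → ℝ} (hu : ∀ i j, |u i j| ≤ 1) (x : Site n L l) :
    ‖Su k q α U u x‖ ^ 2 ≤ 512 * N ^ 4 * Sq k q U ∧ ‖Su k q α U u x‖ ^ 2 ≤ 1024 * N ^ 6 := by
  have key : ∀ c : ℝ, 0 ≤ c → (∀ i j, ‖Fc k q U x i j‖ ≤ c) →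
      ‖Su k q α U u x‖ ≤ 16 * (N ^ 2 * c) := by
    intro c hc h
    unfold Su
    refine (norm_sum_le _ _).trans ?_
    refine (Finset.sum_le_sum fun i _ => norm_sum_le _ _).trans ?_
    refine sum16 (by positivity) fun i j => ?_
    rw [norm_mul, Complex.norm_real]
    calc ‖u i j‖ * ‖ph2 k q α U i j x‖ ≤ 1 * (N ^ 2 * c) :=
          mul_le_mul (hu i j) ((ph2_le k q α U i j x).trans
            (mul_le_mul_of_nonneg_left (h i j) (by positivity))) (norm_nonneg _) zero_le_one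
      _ = _ := one_mul _
  constructor
  · have h1 := key (ss k q U) (ss_nonneg k q U) (Fc_le k q U x)
    calc ‖Su k q α U u x‖ ^ 2 ≤ (16 * (N ^ 2 * ss k q U)) ^ 2 :=
          pow_le_pow_left₀ (norm_nonneg _) h1 2
      _ = 256 * N ^ 4 * ss k q U ^ 2 := by ring
      _ = _ := by
        rw [ss_sq']
        ring
  · have h1 := key (2 * N) (by positivity) (Fc_le_N k q U x)
    calc ‖Su k q α U u x‖ ^ 2 ≤ (16 * (N ^ 2 * (2 * N) : ℝ)) ^ 2 :=
          pow_le_pow_left₀ (norm_nonneg _) h1 2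
      _ = _ := by ring

/-- the sum of the squares of the fields -/
lemma sum_squ (k : ℕ) (q : ZMod n × ZMod L → ZMod N) (U : Link n L l → SU N)
    (u : Fin 4 → Fin 4 → ℝ) (x : Site n L l) {β : ℝ} (hβ : 0 ≤ β) :
    ∑ a ∈ Cz N ×ˢ ({1, Complex.I} : Finset ℂ), (Real.sqrt β * Ph k q (pu a.1 a.2 u x) U) ^ 2 =
      β * ∑ α ∈ Cz N, ‖Su k q α U u x‖ ^ 2 := by
  rw [Finset.sum_product, Finset.mul_sum]
  refine Finset.sum_congr rfl fun α hα => ?_
  rw [← re_sq, Finset.mul_sum]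
  refine Finset.sum_congr rfl fun w _ => ?_
  rw [Ph_pu k q hα w, mul_pow, Real.sq_sqrt hβ]

lemma Xu_eq (k : ℕ) (β : ℝ) (u : Fin 4 → Fin 4 → ℝ) (x : Site n L l)
    (q : ZMod n × ZMod L → ZMod N) (U : Link n L l → SU N) :
    Xu k β u x q U = β / 2 * ‖Fu k q U u x‖ ^ 2 := by
  unfold Xu
  rw [norm_sq_tr, trace_mul_comm]

lemma Fu_le (k : ℕ) (q : ZMod n × ZMod L → ZMod N) (U : Link n L l → SU N)
    {u : Fin 4 → Fin 4 → ℝ} (hu : ∀ i j, |u i j| ≤ 1) (x : Site n L l) :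
    ‖Fu k q U u x‖ ^ 2 ≤ 512 * Sq k q U := by
  have h1 : ‖Fu k q U u x‖ ≤ 16 * ss k q U := by
    unfold Fu
    refine (norm_sum_le _ _).trans ?_
    refine (Finset.sum_le_sum fun i _ => norm_sum_le _ _).trans ?_
    refine sum16 (ss_nonneg k q U) fun i j => ?_
    rw [norm_smul, Complex.norm_real]
    calc ‖u i j‖ * ‖Fc k q U x i j‖ ≤ 1 * ss k q U :=
          mul_le_mul (hu i j) (Fc_le k q U x i j) (norm_nonneg _) zero_le_one
      _ = _ := one_mul _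
  calc ‖Fu k q U u x‖ ^ 2 ≤ (16 * ss k q U) ^ 2 := pow_le_pow_left₀ (norm_nonneg _) h1 2
    _ = 256 * ss k q U ^ 2 := by ring
    _ = _ := by
      rw [ss_sq']
      ring

lemma cont_Xu (k : ℕ) (β : ℝ) (u : Fin 4 → Fin 4 → ℝ) (x : Site n L l)
    (q : ZMod n × ZMod L → ZMod N) : Continuous fun U : Link n L l → SU N => Xu k β u x q U := by
  have h1 : Continuous fun U : Link n L l → SU N => Fu k q U u x := by
    unfold Fu
    exact continuous_finsetSum _ fun i _ => continuous_finsetSum _ fun j _ =>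
      (cont_Fc k q x i j).const_smul (u i j : ℂ)
  have h2 : (fun U : Link n L l → SU N => Xu k β u x q U) =
      fun U => β / 2 * ‖Fu k q U u x‖ ^ 2 := by
    funext U
    exact Xu_eq k β u x q U
  rw [h2]
  exact continuous_const.mul (h1.norm.pow 2)

lemma Fu_smul (k : ℕ) (q : ZMod n × ZMod L → ZMod N) (U : Link n L l → SU N) (r : ℝ)
    (u : Fin 4 → Fin 4 → ℝ) (x : Site n L l) :
    Fu k q U (fun i j => r * u i j) x = (r : ℂ) • Fu k q U u x := by
  unfold Fu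
  rw [Finset.smul_sum]
  refine Finset.sum_congr rfl fun i _ => ?_
  rw [Finset.smul_sum]
  refine Finset.sum_congr rfl fun j _ => ?_
  rw [smul_smul]
  push_cast
  rfl

lemma Xu_smul (k : ℕ) (β : ℝ) (r : ℝ) (u : Fin 4 → Fin 4 → ℝ) (x : Site n L l)
    (q : ZMod n × ZMod L → ZMod N) (U : Link n L l → SU N) :
    Xu k β (fun i j => r * u i j) x q U = r ^ 2 * Xu k β u x q U := by
  rw [Xu_eq, Xu_eq, Fu_smul, norm_smul, mul_pow, Complex.norm_real, Real.norm_eq_abs, sq_abs]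
  ring

lemma kru_smul (k : ℕ) (α : Col N) (r s : ℝ) (u v : Fin 4 → Fin 4 → ℝ) (x y : Site n L l) :
    kru k α (fun i j => r * u i j) (fun i j => s * v i j) x y =
      ((r * s : ℝ) : ℂ) * kru k α u v x y := by
  unfold kru
  simp only [Finset.mul_sum]
  refine Finset.sum_congr rfl fun i _ => Finset.sum_congr rfl fun j _ =>
    Finset.sum_congr rfl fun i' _ => Finset.sum_congr rfl fun j' _ => ?_
  push_cast
  ring

end alg

/-! ### numerical estimates -/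

lemma vin1 {C5 C12 V β Z T B : ℝ} {p5 : ℕ} (hC5 : 0 < C5) (hC12 : 0 < C12) (hV : 1 ≤ V)
    (hβ : 1 ≤ β) (hZ : 0 < Z) (hT0 : 0 ≤ T) (hB : 0 ≤ B)
    (hT : T ≤ (1 + C12 * (V * (1 + Real.log β)) ^ 3) * Z) :
    4 * (C5 * V ^ p5 / Real.sqrt β) * B * T * Z +
      4 * (C5 * V ^ p5 / Real.sqrt β) * B * T ^ 2 ≤
    8 * B * C5 * ((1 + C12) * 15625) ^ 2 * V ^ (p5 + 6) * β ^ (-(1 / 4) : ℝ) * Z ^ 2 := by
  have h := fin1 (N := 0) (p5 := p5) hC5 hC12 hV hβ hZ hT0 hT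
  have h2 := mul_le_mul_of_nonneg_left h (show 0 ≤ 2 * B by linarith)
  refine le_trans (le_of_eq ?_) (h2.trans (le_of_eq ?_))
  · push_cast
    ring
  · push_cast
    ring

lemma vin2 {a V b Z s r κ : ℝ} {N p4 : ℕ} [NeZero N] (ha : 0 < a) (hV : 1 ≤ V) (hb0 : 0 ≤ b)
    (hb1 : b ≤ 1) (hr0 : 0 ≤ r) (hs : s ≤ 2 * (N : ℝ) ^ 2) (hκ : 0 ≤ κ)
    (hr : r ≤ 2 * (N : ℝ) ^ 2) (hZ : 0 < Z) :
    (1 / (2 * (N : ℝ))) ^ 2 * (s * r * ((a * V ^ p4 * b * Z) * Z +
      2 * (a * V ^ p4 + κ) * Z * (a * V ^ p4 * b * Z) + (a * V ^ p4 * b * Z) ^ 2)) ≤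
    (N : ℝ) ^ 2 * (a + 2 * (a + κ) * a + a ^ 2) * V ^ (2 * p4) * b * Z ^ 2 := by
  have hN0 : (0 : ℝ) < N := by exact_mod_cast Nat.pos_of_neZero N
  set W := V ^ p4 with hW
  have hW1 : 1 ≤ W := one_le_pow₀ hV
  have hW0 : 0 < W := by linarith
  have hW2 : V ^ (2 * p4) = W ^ 2 := by rw [hW, ← pow_mul, mul_comm]
  rw [hW2]
  have hWW : W ≤ W ^ 2 := by nlinarith
  have k1 : (a * W * b * Z) * Z + 2 * (a * W + κ) * Z * (a * W * b * Z) +
      (a * W * b * Z) ^ 2 ≤ (a + 2 * (a + κ) * a + a ^ 2) * W ^ 2 * b * Z ^ 2 := by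
    have t1 : (a * W * b * Z) * Z ≤ a * W ^ 2 * b * Z ^ 2 := by
      calc (a * W * b * Z) * Z = (a * b * Z ^ 2) * W := by ring
        _ ≤ (a * b * Z ^ 2) * W ^ 2 := mul_le_mul_of_nonneg_left hWW (by positivity)
        _ = _ := by ring
    have t2 : 2 * (a * W + κ) * Z * (a * W * b * Z) ≤
        2 * (a + κ) * a * W ^ 2 * b * Z ^ 2 := by
      have h1 : a * W + κ ≤ (a + κ) * W := by
        have : κ * 1 ≤ κ * W := mul_le_mul_of_nonneg_left hW1 hκ
        linarith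
      calc 2 * (a * W + κ) * Z * (a * W * b * Z) =
            (2 * a * W * b * Z ^ 2) * (a * W + κ) := by ring
        _ ≤ (2 * a * W * b * Z ^ 2) * ((a + κ) * W) :=
            mul_le_mul_of_nonneg_left h1 (by positivity)
        _ = _ := by ring
    have t3 : (a * W * b * Z) ^ 2 ≤ a ^ 2 * W ^ 2 * b * Z ^ 2 := by
      have h1 : b ^ 2 ≤ b := by nlinarith
      calc (a * W * b * Z) ^ 2 = (a ^ 2 * W ^ 2 * Z ^ 2) * b ^ 2 := by ring
        _ ≤ (a ^ 2 * W ^ 2 * Z ^ 2) * b := mul_le_mul_of_nonneg_left h1 (by positivity)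
        _ = _ := by ring
    calc _ ≤ a * W ^ 2 * b * Z ^ 2 + 2 * (a + κ) * a * W ^ 2 * b * Z ^ 2 +
          a ^ 2 * W ^ 2 * b * Z ^ 2 := add_le_add (add_le_add t1 t2) t3
      _ = _ := by ring
  have k2 : s * r ≤ (2 * (N : ℝ) ^ 2) * (2 * (N : ℝ) ^ 2) := mul_le_mul hs hr hr0 (by positivity)
  calc _ ≤ (1 / (2 * (N : ℝ))) ^ 2 * ((2 * (N : ℝ) ^ 2) * (2 * (N : ℝ) ^ 2) *
        ((a + 2 * (a + κ) * a + a ^ 2) * W ^ 2 * b * Z ^ 2)) :=
        mul_le_mul_of_nonneg_left (mul_le_mul k2 k1 (by positivity) (by positivity))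
          (by positivity)
    _ = _ := by
      field_simp

/-- the statement for coefficients bounded by `1` -/
theorem V5core (hW1 : S_W1) (hW4 : S_W4) (hV5a : S_V5a) (hV5b : S_V5b) (hR6 : S_R6)
    (hQ12 : S_Q12) (N k : ℕ) [NeZero N] (hk : Nat.Coprime k N) [MeasurableSpace (SU N)]
    [BorelSpace (SU N)] (μ : Measure (SU N)) [IsProbabilityMeasure μ] [μ.IsHaarMeasure] :
    ∃ C : ℝ, ∃ p : ℕ, 0 < C ∧ ∀ (m l R : ℕ) [NeZero m] [NeZero (2 * m)]
    [NeZero l], 2 * R + 2 ≤ 2 * m → ∀ β : ℝ, 1 ≤ β →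
    ∀ (u v : Fin 4 → Fin 4 → ℝ), (∀ i j, |u i j| ≤ 1) → (∀ i j, |v i j| ≤ 1) →
    ∀ x y : Site (2 * m) (2 * m) l,
    ∀ A : ((ZMod (2 * m) × ZMod (2 * m) → ZMod N) → (Link (2 * m) (2 * m) l → SU N) → ℝ) → ℝ,
    (A = fun H => Sw N (2 * m) (2 * m) R (fun q => ∫ U, H q U * Real.exp (-(β * Sq k q U))
      ∂(Measure.pi fun _ : Link (2 * m) (2 * m) l => μ))) →
    |A (fun q U => Xu k β u x q U * Xu k β v y q U) * A (fun _ _ => 1) -
        A (Xu k β u x) * A (Xu k β v y) -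
        (1 / 2 * ∑ α ∈ Cz N, ‖kru k α u v x y‖ ^ 2) * A (fun _ _ => 1) ^ 2| ≤
      C * vol (2 * m) (2 * m) l ^ p * β ^ (-(1 / 4) : ℝ) * A (fun _ _ => 1) ^ 2 := by
  obtain ⟨χ, hχ⟩ := hW1 N k hk
  obtain ⟨C4, p4, hC4, h4⟩ := hW4 N k hk χ hχ μ
  obtain ⟨C5', p5, hC5', h5'⟩ := hV5b N
  obtain ⟨C12, hC12, h12⟩ := hQ12 N k hk μ
  set C5 : ℝ := C5' * 16 with hC5d
  have hC5 : 0 < C5 := by positivity
  set a : ℝ := C4 * 3 ^ 12 with ha
  have ha0 : 0 < a := by positivity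
  have hN0 : (0 : ℝ) < N := by exact_mod_cast Nat.pos_of_neZero N
  have hN1 : (1 : ℝ) ≤ N := by exact_mod_cast Nat.pos_of_neZero N
  refine ⟨8 * (256 * N ^ 5) * C5 * ((1 + C12) * 15625) ^ 2 +
    N ^ 2 * (a + 2 * (a + 1024 * N ^ 6) * a + a ^ 2), p5 + 6 + 2 * p4, by positivity, ?_⟩
  intro m l R _ _ _ hR β hβ u v hu hv x y A hAdef
  set V := vol (2 * m) (2 * m) l with hV
  have hV1 : 1 ≤ V := vol_ge.1
  have hV0 : 0 ≤ V := zero_le_one.trans hV1
  have hβ0 : 0 < β := by linarith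
  have hsb : 0 < Real.sqrt β := Real.sqrt_pos.2 hβ0
  have hA : Pos A := by
    rw [hAdef]
    exact AA_pos μ k R β
  set Z := Sw N (2 * m) (2 * m) R (fun q => ∫ U, Real.exp (-(β * Sq k q U))
    ∂(Measure.pi fun _ : Link (2 * m) (2 * m) l => μ)) with hZ
  have hZ0 : 0 < Z := Z_pos μ k R β
  have hAZ : A (fun _ _ => 1) = Z := by
    rw [hAdef, hZ]
    simp only [one_mul]
  -- the bound of the variances
  have hK : ∀ (α : Col N) (w : ℂ), α ∈ Cz N → w ∈ ({1, Complex.I} : Finset ℂ) →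
      ∀ u : Fin 4 → Fin 4 → ℝ, (∀ i j, |u i j| ≤ 1) →
      ∀ y : Site (2 * m) (2 * m) l, |cc χ k (pu α w u y)| ≤ a * V ^ p4 + 1024 * N ^ 6 := by
    intro α w hα hw u hu y
    have hw1 : ‖w‖ = 1 := by
      rw [Finset.mem_insert, Finset.mem_singleton] at hw
      rcases hw with h | h <;> rw [h] <;> simp
    have g := (h4 m l R hR (pu α w u y) (fun α' a b x =>
      pu_anti w u y α' a b x) 2 (fun α' a b x =>
      (pu_norm hw1 hu y α' a b x).trans (by norm_num)) 1 le_rfl _ rfl _ rfl).1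
    have hZ1 := Z_pos (N := N) (n := 2 * m) (L := 2 * m) (l := l) μ k R 1
    set Z1 := Sw N (2 * m) (2 * m) R (fun q => ∫ U, Real.exp (-(1 * Sq k q U))
      ∂(Measure.pi fun _ : Link (2 * m) (2 * m) l => μ)) with hZ1'
    have hP := AA_pos (N := N) (n := 2 * m) (L := 2 * m) (l := l) μ k R 1
    have hb : ∀ (q : ZMod (2 * m) × ZMod (2 * m) → ZMod N) (U : Link (2 * m) (2 * m) l → SU N),
        1 * Ph k q (pu α w u y) U ^ 2 ≤ 1024 * N ^ 6 * 1 := by
      intro q U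
      rw [one_mul, mul_one, Ph_pu k q hα w]
      refine le_trans ?_ (Su_sq_le k q α U hu y).2
      rw [← sq_abs]
      refine pow_le_pow_left₀ (abs_nonneg _) ((Complex.abs_re_le_norm _).trans ?_) 2
      rw [norm_mul, hw1, one_mul]
    have e1 := hP.mono (fun q U => 1 * Ph k q (pu α w u y) U ^ 2) (fun q U => 1024 * N ^ 6 * 1)
      (fun q => continuous_const.mul ((Run7.h630.QF.cont_Ph k q _).pow 2))
      (fun q => continuous_const) hb
    have e2 := hP.mono (fun q U => 0 * 1) (fun q U => 1 * Ph k q (pu α w u y) U ^ 2)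
      (fun q => continuous_const)
      (fun q => continuous_const.mul ((Run7.h630.QF.cont_Ph k q _).pow 2))
      (fun q U => by
        rw [zero_mul, one_mul]
        exact sq_nonneg _)
    rw [hP.mul (1024 * N ^ 6) (fun _ _ => 1)] at e1
    rw [hP.mul 0 (fun _ _ => 1), zero_mul] at e2
    rw [Real.one_rpow] at g
    have e3 : Sw N (2 * m) (2 * m) R (fun q => ∫ U, 1 * Real.exp (-(1 * Sq k q U))
      ∂(Measure.pi fun _ : Link (2 * m) (2 * m) l => μ)) = Z1 := by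
      rw [hZ1']
      simp only [one_mul]
    rw [e3] at e1
    have g' := abs_le.1 g
    have e4 : |cc χ k (pu α w u y)| * Z1 ≤ (a * V ^ p4 + 1024 * N ^ 6) * Z1 := by
      have e5 : C4 * V ^ p4 * (1 + 2) ^ 12 * 1 * Z1 = a * V ^ p4 * Z1 := by
        rw [ha]
        ring
      rw [e5] at g'
      rw [← abs_of_pos hZ1, ← abs_mul, abs_of_pos hZ1, abs_le]
      constructor <;> nlinarith
    exact le_of_mul_le_mul_right e4 hZ1
  -- the moments of the fields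
  set b4 : ℝ := β ^ (-(1 / 4) : ℝ) with hb4
  have hb0 : 0 ≤ b4 := Real.rpow_nonneg hβ0.le _
  have hb1 : b4 ≤ 1 := Real.rpow_le_one_of_one_le_of_nonpos hβ (by norm_num)
  set E : ℝ := a * V ^ p4 * b4 * Z with hE
  have hW : ∀ f : Col N → Fin 4 → Fin 4 → Site (2 * m) (2 * m) l → ℂ,
      (∀ α i j x, f α j i x = -f α i j x) → (∀ α i j x, ‖f α i j x‖ ≤ 2) →
      |A (fun q U => (Real.sqrt β * Ph k q f U) ^ 2) - cc χ k f * Z| ≤ E ∧
      |A (fun q U => (Real.sqrt β * Ph k q f U) ^ 4) - 3 * cc χ k f ^ 2 * Z| ≤ E := by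
    intro f hf hf2
    have g := h4 m l R hR f hf 2 hf2 β hβ Z hZ E (by
      rw [hE, ha]
      ring)
    have e2 : ∀ y : ℝ, (Real.sqrt β * y) ^ 2 = β * y ^ 2 := fun y => by
      rw [mul_pow, Real.sq_sqrt hβ0.le]
    have e4 : ∀ y : ℝ, (Real.sqrt β * y) ^ 4 = β ^ 2 * y ^ 4 := fun y => by
      rw [show (Real.sqrt β * y) ^ 4 = ((Real.sqrt β * y) ^ 2) ^ 2 by ring, e2]
      ring
    rw [hAdef]
    simp only [e2, e4]
    exact g
  have hw1 : ∀ w ∈ ({1, Complex.I} : Finset ℂ), ‖w‖ = 1 := by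
    intro w hw
    rw [Finset.mem_insert, Finset.mem_singleton] at hw
    rcases hw with h | h <;> rw [h] <;> simp
  have cF : ∀ (f : Col N → Fin 4 → Fin 4 → Site (2 * m) (2 * m) l → ℂ)
      (q : ZMod (2 * m) × ZMod (2 * m) → ZMod N),
      Continuous fun U : Link (2 * m) (2 * m) l → SU N => Real.sqrt β * Ph k q f U := fun f q =>
    continuous_const.mul (Run7.h630.QF.cont_Ph k q f)
  -- one pair
  have hpair : ∀ a' ∈ Cz N ×ˢ ({1, Complex.I} : Finset ℂ),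
      ∀ b' ∈ Cz N ×ˢ ({1, Complex.I} : Finset ℂ),
      |A (fun q U => (Real.sqrt β * Ph k q (pu a'.1 a'.2 u x) U) ^ 2 *
        (Real.sqrt β * Ph k q (pu b'.1 b'.2 v y) U) ^ 2) * Z -
      A (fun q U => (Real.sqrt β * Ph k q (pu a'.1 a'.2 u x) U) ^ 2) *
        A (fun q U => (Real.sqrt β * Ph k q (pu b'.1 b'.2 v y) U) ^ 2) -
      ct χ k (pu a'.1 a'.2 u x) (pu b'.1 b'.2 v y) ^ 2 / 2 * Z ^ 2| ≤
      E * Z + 2 * (a * V ^ p4 + 1024 * N ^ 6) * Z * E + E ^ 2 := by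
    intro a' ha' b' hb'
    rw [Finset.mem_product] at ha' hb'
    have n1 := pu_norm (α := a'.1) (hw1 _ ha'.2) hu x
    have n2 := pu_norm (α := b'.1) (hw1 _ hb'.2) hv y
    have s1 := pu_anti (α := a'.1) a'.2 u x
    have s2 := pu_anti (α := b'.1) b'.2 v y
    obtain ⟨c1, c2⟩ := cc_ct χ k (pu a'.1 a'.2 u x) (pu b'.1 b'.2 v y)
    set f := pu a'.1 a'.2 u x with hf
    set g := pu b'.1 b'.2 v y with hg
    have hlin : ∀ r : ℝ, ‖(r : ℂ)‖ = 1 →
        (∀ α i j x, (fun α i j x => f α i j x + r * g α i j x) α j i x =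
          -(fun α i j x => f α i j x + r * g α i j x) α i j x) ∧
        (∀ α i j x, ‖(fun α i j x => f α i j x + r * g α i j x) α i j x‖ ≤ 2) := by
      intro r hr
      constructor
      · intro α a b z
        simp only
        rw [s1 α a b z, s2 α a b z]
        ring
      · intro α a b z
        simp only
        refine (norm_add_le _ _).trans ?_
        rw [norm_mul, hr, one_mul]
        have := n1 α a b z
        have := n2 α a b z
        linarith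
    obtain ⟨l1, l2⟩ := hlin 1 (by simp)
    obtain ⟨l3, l4⟩ := hlin (-1) (by simp)
    have w1 := hW f s1 fun α a b z => (n1 α a b z).trans (by norm_num)
    have w2 := hW g s2 fun α a b z => (n2 α a b z).trans (by norm_num)
    have w3 := (hW _ l1 l2).2
    have w4 := (hW _ l3 l4).2
    rw [c1] at w3
    rw [c2] at w4
    have e3 : (fun (q : ZMod (2 * m) × ZMod (2 * m) → ZMod N) (U : Link (2 * m) (2 * m) l → SU N) =>
        (Real.sqrt β * Ph k q (fun α i j x => f α i j x + ((1 : ℝ) : ℂ) * g α i j x) U) ^ 4) =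
        fun q U => (Real.sqrt β * Ph k q f U + Real.sqrt β * Ph k q g U) ^ 4 := by
      funext q U
      rw [Ph_lin]
      ring
    have e4 : (fun (q : ZMod (2 * m) × ZMod (2 * m) → ZMod N) (U : Link (2 * m) (2 * m) l → SU N) =>
        (Real.sqrt β * Ph k q (fun α i j x => f α i j x + ((-1 : ℝ) : ℂ) * g α i j x) U) ^ 4) =
        fun q U => (Real.sqrt β * Ph k q f U - Real.sqrt β * Ph k q g U) ^ 4 := by
      funext q U
      rw [Ph_lin]
      ring
    rw [e3] at w3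
    rw [e4] at w4
    exact hA.two (F := fun q U => Real.sqrt β * Ph k q f U)
      (G := fun q U => Real.sqrt β * Ph k q g U) (cF f) (cF g) rfl rfl w1.1 w1.2 w2.1 w2.2 w3 w4
      (hK _ _ ha'.1 ha'.2 u hu x) (hK _ _ hb'.1 hb'.2 v hv y) hZ0.le
  have hmany := hA.many (Cz N ×ˢ ({1, Complex.I} : Finset ℂ)) (Cz N ×ˢ ({1, Complex.I} : Finset ℂ))
    (F := fun (a' : Col N × ℂ) q U => Real.sqrt β * Ph k q (pu a'.1 a'.2 u x) U)
    (G := fun (b' : Col N × ℂ) q U => Real.sqrt β * Ph k q (pu b'.1 b'.2 v y) U)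
    (fun a' q => cF _ q) (fun b' q => cF _ q)
    (t := fun a' b' => ct χ k (pu a'.1 a'.2 u x) (pu b'.1 b'.2 v y))
    (c := 1 / (2 * (N : ℝ))) hpair
  -- the sum of the squares of the covariances
  have hsum : ∑ a' ∈ Cz N ×ˢ ({1, Complex.I} : Finset ℂ),
      ∑ b' ∈ Cz N ×ˢ ({1, Complex.I} : Finset ℂ),
        ct χ k (pu a'.1 a'.2 u x) (pu b'.1 b'.2 v y) ^ 2 =
      4 * N ^ 2 * ∑ α ∈ Cz N, ‖kru k α u v x y‖ ^ 2 := by
    rw [← hV5a N (2 * m) (2 * m) l k hk χ hχ.1 hχ.2.1 u v x y, Finset.sum_product]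
    refine Finset.sum_congr rfl fun α _ => Finset.sum_congr rfl fun w _ => ?_
    rw [Finset.sum_product]
  rw [hsum] at hmany
  have hcard : (((Cz N ×ˢ ({1, Complex.I} : Finset ℂ)).card : ℕ) : ℝ) ≤ 2 * (N : ℝ) ^ 2 := by
    rw [Finset.card_product, Nat.cast_mul, card_one_I]
    have := card_Cz (N := N)
    linarith
  have hmany2 := hmany.trans (vin2 (κ := 1024 * (N : ℝ) ^ 6) ha0 hV1 hb0 hb1 (Nat.cast_nonneg _)
    hcard (by positivity) hcard hZ0)
  -- the replacement of the energies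
  have hX' : ∀ (u : Fin 4 → Fin 4 → ℝ) (x : Site (2 * m) (2 * m) l)
      (q : ZMod (2 * m) × ZMod (2 * m) → ZMod N) (U : Link (2 * m) (2 * m) l → SU N),
      1 / (2 * (N : ℝ)) * ∑ a' ∈ Cz N ×ˢ ({1, Complex.I} : Finset ℂ),
        (Real.sqrt β * Ph k q (pu a'.1 a'.2 u x) U) ^ 2 =
      β / (2 * N) * ∑ α ∈ Cz N, ‖Su k q α U u x‖ ^ 2 := by
    intro u x q U
    rw [sum_squ k q U u x hβ0.le]
    ring
  have hX'0 : ∀ (u : Fin 4 → Fin 4 → ℝ) (x : Site (2 * m) (2 * m) l)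
      (q : ZMod (2 * m) × ZMod (2 * m) → ZMod N) (U : Link (2 * m) (2 * m) l → SU N),
      0 ≤ 1 / (2 * (N : ℝ)) * ∑ a' ∈ Cz N ×ˢ ({1, Complex.I} : Finset ℂ),
        (Real.sqrt β * Ph k q (pu a'.1 a'.2 u x) U) ^ 2 := by
    intro u x q U
    exact mul_nonneg (by positivity) (Finset.sum_nonneg fun _ _ => sq_nonneg _)
  have hSq : ∀ (q : ZMod (2 * m) × ZMod (2 * m) → ZMod N) (U : Link (2 * m) (2 * m) l → SU N),
      0 ≤ β * Sq k q U := by
    intro q U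
    have := two_Sq_nonneg k q U
    exact mul_nonneg hβ0.le (by linarith)
  have hX's : ∀ u : Fin 4 → Fin 4 → ℝ, (∀ i j, |u i j| ≤ 1) → ∀ (x : Site (2 * m) (2 * m) l)
      (q : ZMod (2 * m) × ZMod (2 * m) → ZMod N) (U : Link (2 * m) (2 * m) l → SU N),
      1 / (2 * (N : ℝ)) * ∑ a' ∈ Cz N ×ˢ ({1, Complex.I} : Finset ℂ),
        (Real.sqrt β * Ph k q (pu a'.1 a'.2 u x) U) ^ 2 ≤ 256 * (N : ℝ) ^ 5 * (β * Sq k q U) := by
    intro u hu x q U
    rw [hX' u x q U]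
    have h1 : ∑ α ∈ Cz N, ‖Su k q α U u x‖ ^ 2 ≤ (N : ℝ) ^ 2 * (512 * N ^ 4 * Sq k q U) := by
      refine (Finset.sum_le_sum fun α _ => (Su_sq_le k q α U hu x).1).trans ?_
      rw [Finset.sum_const, nsmul_eq_mul]
      refine mul_le_mul_of_nonneg_right card_Cz ?_
      have := two_Sq_nonneg k q U
      have h2 : 512 * (N : ℝ) ^ 4 * Sq k q U = 256 * N ^ 4 * (2 * Sq k q U) := by ring
      rw [h2]
      positivity
    calc β / (2 * N) * ∑ α ∈ Cz N, ‖Su k q α U u x‖ ^ 2 ≤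
          β / (2 * N) * ((N : ℝ) ^ 2 * (512 * N ^ 4 * Sq k q U)) :=
          mul_le_mul_of_nonneg_left h1 (by positivity)
      _ = _ := by
        field_simp
        ring
  have hX0 : ∀ (u : Fin 4 → Fin 4 → ℝ) (x : Site (2 * m) (2 * m) l)
      (q : ZMod (2 * m) × ZMod (2 * m) → ZMod N) (U : Link (2 * m) (2 * m) l → SU N),
      0 ≤ Xu k β u x q U := by
    intro u x q U
    rw [Xu_eq]
    positivity
  have hXs : ∀ u : Fin 4 → Fin 4 → ℝ, (∀ i j, |u i j| ≤ 1) → ∀ (x : Site (2 * m) (2 * m) l)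
      (q : ZMod (2 * m) × ZMod (2 * m) → ZMod N) (U : Link (2 * m) (2 * m) l → SU N),
      Xu k β u x q U ≤ 256 * (N : ℝ) ^ 5 * (β * Sq k q U) := by
    intro u hu x q U
    rw [Xu_eq]
    calc β / 2 * ‖Fu k q U u x‖ ^ 2 ≤ β / 2 * (512 * Sq k q U) :=
          mul_le_mul_of_nonneg_left (Fu_le k q U hu x) (by positivity)
      _ = 256 * 1 * (β * Sq k q U) := by ring
      _ ≤ _ := by
        refine mul_le_mul_of_nonneg_right ?_ (hSq q U)
        exact mul_le_mul_of_nonneg_left (one_le_pow₀ hN1) (by norm_num)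
  have hXX : ∀ u : Fin 4 → Fin 4 → ℝ, (∀ i j, |u i j| ≤ 1) → ∀ (x : Site (2 * m) (2 * m) l)
      (q : ZMod (2 * m) × ZMod (2 * m) → ZMod N) (U : Link (2 * m) (2 * m) l → SU N),
      |Xu k β u x q U - 1 / (2 * (N : ℝ)) * ∑ a' ∈ Cz N ×ˢ ({1, Complex.I} : Finset ℂ),
        (Real.sqrt β * Ph k q (pu a'.1 a'.2 u x) U) ^ 2| ≤
      C5 * V ^ p5 / Real.sqrt β * (1 + (β * Sq k q U) ^ 2) := by
    intro u hu x q U
    rw [hX' u x q U]
    have g := h5' (2 * m) (2 * m) l k hk q U u 1 hu x β hβ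
    refine le_trans g (le_of_eq ?_)
    rw [hC5d]
    ring
  have cX' : ∀ (u : Fin 4 → Fin 4 → ℝ) (x : Site (2 * m) (2 * m) l)
      (q : ZMod (2 * m) × ZMod (2 * m) → ZMod N),
      Continuous fun U : Link (2 * m) (2 * m) l → SU N =>
        1 / (2 * (N : ℝ)) * ∑ a' ∈ Cz N ×ˢ ({1, Complex.I} : Finset ℂ),
        (Real.sqrt β * Ph k q (pu a'.1 a'.2 u x) U) ^ 2 := fun u x q =>
    continuous_const.mul (continuous_finsetSum _ fun a' _ => (cF _ q).pow 2)
  have hpert := hA.pert2 (X := Xu k β u x) (Y := Xu k β v y)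
    (X' := fun q U => 1 / (2 * (N : ℝ)) * ∑ a' ∈ Cz N ×ˢ ({1, Complex.I} : Finset ℂ),
        (Real.sqrt β * Ph k q (pu a'.1 a'.2 u x) U) ^ 2)
    (Y' := fun q U => 1 / (2 * (N : ℝ)) * ∑ a' ∈ Cz N ×ˢ ({1, Complex.I} : Finset ℂ),
        (Real.sqrt β * Ph k q (pu a'.1 a'.2 v y) U) ^ 2)
    (s := fun q U => β * Sq k q U) (D := C5 * V ^ p5 / Real.sqrt β) (B := 256 * (N : ℝ) ^ 5)
    (T := A (fun q U => 1 + (β * Sq k q U) ^ 3))
    (cont_Xu k β u x) (cX' u x) (cont_Xu k β v y)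
    (cX' v y) (fun q => continuous_const.mul (cont_Sq k q)) (by positivity) (by positivity)
    hSq (hX'0 u x) (hX's u hu x) (hXX u hu x) (hX0 v y) (hXs v hv y) (hXX v hv y) rfl
  have hT : A (fun q U => 1 + (β * Sq k q U) ^ 3) ≤
      (1 + C12 * (V * (1 + Real.log β)) ^ 3) * Z := by
    rw [hAdef]
    exact mom3 hR6 hR (h12 m m l β hβ)
  have hT0 : 0 ≤ A (fun q U => 1 + (β * Sq k q U) ^ 3) := by
    rw [← hA.zero]
    refine hA.mono _ _ (fun q => continuous_const)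
      (fun q => continuous_const.add ((continuous_const.mul (cont_Sq k q)).pow 3)) fun q U => ?_
    have := pow_nonneg (hSq q U) 3
    linarith
  have hfin := vin1 (p5 := p5) (B := 256 * (N : ℝ) ^ 5) hC5 hC12 hV1 hβ hZ0 hT0 (by positivity) hT
  -- the assembly
  rw [hAZ]
  have e1 : (1 / (2 * (N : ℝ))) ^ 2 / 2 * (4 * (N : ℝ) ^ 2 *
      ∑ α ∈ Cz N, ‖kru k α u v x y‖ ^ 2) = 1 / 2 * ∑ α ∈ Cz N, ‖kru k α u v x y‖ ^ 2 := by
    field_simp
    ring
  rw [e1] at hmany2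
  rw [← hb4] at hfin
  have v0 : ∀ r : ℕ, r ≤ p5 + 6 + 2 * p4 → V ^ r ≤ V ^ (p5 + 6 + 2 * p4) := fun r hr =>
    pow_le_pow_right₀ hV1 hr
  have v1 : 8 * (256 * (N : ℝ) ^ 5) * C5 * ((1 + C12) * 15625) ^ 2 * V ^ (p5 + 6) * b4 * Z ^ 2 ≤
      8 * (256 * (N : ℝ) ^ 5) * C5 * ((1 + C12) * 15625) ^ 2 * V ^ (p5 + 6 + 2 * p4) * b4 *
        Z ^ 2 := by
    have h := v0 (p5 + 6) (by omega)
    gcongr
  have v2 : (N : ℝ) ^ 2 * (a + 2 * (a + 1024 * N ^ 6) * a + a ^ 2) * V ^ (2 * p4) * b4 * Z ^ 2 ≤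
      (N : ℝ) ^ 2 * (a + 2 * (a + 1024 * N ^ 6) * a + a ^ 2) * V ^ (p5 + 6 + 2 * p4) * b4 *
        Z ^ 2 := by
    have h := v0 (2 * p4) (by omega)
    gcongr
  have e2 : (8 * (256 * (N : ℝ) ^ 5) * C5 * ((1 + C12) * 15625) ^ 2 +
      N ^ 2 * (a + 2 * (a + 1024 * N ^ 6) * a + a ^ 2)) * V ^ (p5 + 6 + 2 * p4) * b4 * Z ^ 2 =
      8 * (256 * (N : ℝ) ^ 5) * C5 * ((1 + C12) * 15625) ^ 2 * V ^ (p5 + 6 + 2 * p4) * b4 * Z ^ 2 +
      (N : ℝ) ^ 2 * (a + 2 * (a + 1024 * N ^ 6) * a + a ^ 2) * V ^ (p5 + 6 + 2 * p4) * b4 *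
        Z ^ 2 := by
    ring
  rw [e2]
  exact fin3 hZ0 hpert.1 hpert.2 hmany2 hfin (add_le_add v1 v2)

/-- **V5** -/
theorem t_V5 (hW1 : S_W1) (hW4 : S_W4) (hV5a : S_V5a) (hV5b : S_V5b) (hR6 : S_R6)
    (hQ12 : S_Q12) : S_V5 := by
  intro N k _ hk _ _ μ _ _
  obtain ⟨C, p, hC, h⟩ := V5core hW1 hW4 hV5a hV5b hR6 hQ12 N k hk μ
  refine ⟨C, p, hC, ?_⟩
  intro m l R _ _ _ hR β hβ u v B hu hv x y A hAdef
  have hB : 0 ≤ B := (abs_nonneg _).trans (hu 0 0)
  set r : ℝ := 1 + B with hr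
  have hr1 : 1 ≤ r := by linarith
  have hr0 : 0 < r := by linarith
  have hβ0 : 0 < β := by linarith
  have hsc : ∀ u : Fin 4 → Fin 4 → ℝ, (∀ i j, |u i j| ≤ B) →
      ∃ u' : Fin 4 → Fin 4 → ℝ, (∀ i j, |u' i j| ≤ 1) ∧ u = fun i j => r * u' i j := by
    intro u hu
    refine ⟨fun i j => r⁻¹ * u i j, ?_, ?_⟩
    · intro i j
      rw [abs_mul, abs_inv, abs_of_pos hr0, inv_mul_le_iff₀ hr0, mul_one]
      exact (hu i j).trans (by linarith)
    · funext i j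
      rw [mul_inv_cancel_left₀ hr0.ne']
  obtain ⟨u', u1, u2⟩ := hsc u hu
  obtain ⟨v', v1, v2⟩ := hsc v hv
  have hA : Pos A := by
    rw [hAdef]
    exact AA_pos μ k R β
  have g := h m l R hR β hβ u' v' u1 v1 x y A hAdef
  have a1 : A (fun q U => Xu k β u x q U * Xu k β v y q U) =
      r ^ 4 * A (fun q U => Xu k β u' x q U * Xu k β v' y q U) := by
    rw [← hA.mul]
    congr 1
    funext q U
    rw [u2, v2, Xu_smul, Xu_smul]
    ring
  have a2 : A (Xu k β u x) = r ^ 2 * A (Xu k β u' x) := by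
    rw [← hA.mul]
    congr 1
    funext q U
    rw [u2, Xu_smul]
  have a3 : A (Xu k β v y) = r ^ 2 * A (Xu k β v' y) := by
    rw [← hA.mul]
    congr 1
    funext q U
    rw [v2, Xu_smul]
  have a4 : ∑ α ∈ Cz N, ‖kru k α u v x y‖ ^ 2 * A (fun _ _ => 1) ^ 2 =
      r ^ 4 * ((∑ α ∈ Cz N, ‖kru k α u' v' x y‖ ^ 2) * A (fun _ _ => 1) ^ 2) := by
    rw [Finset.sum_mul, Finset.mul_sum]
    refine Finset.sum_congr rfl fun α _ => ?_
    rw [u2, v2, kru_smul, norm_mul, Complex.norm_real, Real.norm_eq_abs, mul_pow, sq_abs]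
    ring
  rw [a1, a2, a3, a4]
  set Z := A (fun _ _ => 1) with hZ
  have e : r ^ 4 * A (fun q U => Xu k β u' x q U * Xu k β v' y q U) * Z -
      r ^ 2 * A (Xu k β u' x) * (r ^ 2 * A (Xu k β v' y)) -
      1 / 2 * (r ^ 4 * ((∑ α ∈ Cz N, ‖kru k α u' v' x y‖ ^ 2) * Z ^ 2)) =
      r ^ 4 * (A (fun q U => Xu k β u' x q U * Xu k β v' y q U) * Z -
        A (Xu k β u' x) * A (Xu k β v' y) -
        (1 / 2 * ∑ α ∈ Cz N, ‖kru k α u' v' x y‖ ^ 2) * Z ^ 2) := by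
    ring
  rw [e, abs_mul, abs_of_pos (pow_pos hr0 4)]
  have hV0 : (0 : ℝ) ≤ vol (2 * m) (2 * m) l := zero_le_one.trans vol_ge.1
  have hR' : 0 ≤ C * vol (2 * m) (2 * m) l ^ p * β ^ (-(1 / 4) : ℝ) * Z ^ 2 := by
    have := Real.rpow_nonneg hβ0.le (-(1 / 4))
    positivity
  calc r ^ 4 * _ ≤ r ^ 4 * (C * vol (2 * m) (2 * m) l ^ p * β ^ (-(1 / 4) : ℝ) * Z ^ 2) :=
        mul_le_mul_of_nonneg_left g (by positivity)
    _ ≤ r ^ 16 * (C * vol (2 * m) (2 * m) l ^ p * β ^ (-(1 / 4) : ℝ) * Z ^ 2) :=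
        mul_le_mul_of_nonneg_right (pow_le_pow_right₀ hr1 (by norm_num)) hR'
    _ = _ := by ring

end

end Run7.h882.QW
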